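import Mathlib

-- part MP_435b2a_lc.Prog
section

namespace Pool.Agent.MP_435b2a_lc

open Function Relation

/-- structured register programs -/
inductive Prog
  | zero (r : ℕ)
  | inc (r : ℕ)
  | copy (a b : ℕ)
  | seq (p q : Prog)
  | loop (r : ℕ) (p : Prog)

/-- configurations: continuation and registers -/
abbrev Cfg := List Prog × (ℕ → ℕ)

/-- small step -/
def pstep : Cfg → Option Cfg
  | ([], _) => none
  | (.zero r :: k, s) => some (k, update s r 0)
  | (.inc r :: k, s) => some (k, update s r (s r + 1))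
  | (.copy a b :: k, s) => some (k, update s b (s a))
  | (.seq p q :: k, s) => some (p :: q :: k, s)
  | (.loop r p :: k, s) =>
      if s r = 0 then some (k, s) else some (p :: .loop r p :: k, update s r (s r - 1))

/-- step relation -/
def PS (c c' : Cfg) : Prop := pstep c = some c'

/-- `p` run on `s` terminates with `s'` -/
def Runs (p : Prog) (s s' : ℕ → ℕ) : Prop := ∀ k, ReflTransGen PS (p :: k, s) (k, s')

lemma Runs.zero (r : ℕ) (s : ℕ → ℕ) : Runs (.zero r) s (update s r 0) :=
  fun _ => ReflTransGen.single rfl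

lemma Runs.inc (r : ℕ) (s : ℕ → ℕ) : Runs (.inc r) s (update s r (s r + 1)) :=
  fun _ => ReflTransGen.single rfl

lemma Runs.copy (a b : ℕ) (s : ℕ → ℕ) : Runs (.copy a b) s (update s b (s a)) :=
  fun _ => ReflTransGen.single rfl

lemma Runs.seq {p q : Prog} {s s' s'' : ℕ → ℕ} (h : Runs p s s') (h' : Runs q s' s'') :
    Runs (.seq p q) s s'' :=
  fun k => ReflTransGen.head rfl ((h _).trans (h' k))

lemma Runs.loop_zero {r : ℕ} {p : Prog} {s : ℕ → ℕ} (h : s r = 0) : Runs (.loop r p) s s :=
  fun _ => ReflTransGen.single (by simp [PS, pstep, h])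

lemma Runs.loop_succ {r : ℕ} {p : Prog} {s s' s'' : ℕ → ℕ} (h : s r ≠ 0)
    (h1 : Runs p (update s r (s r - 1)) s') (h2 : Runs (.loop r p) s' s'') :
    Runs (.loop r p) s s'' :=
  fun k => ReflTransGen.head (by simp [PS, pstep, h]) ((h1 _).trans (h2 k))

/-- `f` is computed with arbitrary placement of input and output registers -/
def Computes {n : ℕ} (f : List.Vector ℕ n → ℕ) : Prop :=
  ∀ (inp : Fin n → ℕ) (out b : ℕ), (∀ i, inp i < b) → out < b → (∀ i, inp i ≠ out) →
    ∃ p : Prog, ∀ s : ℕ → ℕ, ∃ s', Runs p s s' ∧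
      s' out = f (List.Vector.ofFn fun i => s (inp i)) ∧ ∀ r, r < b → r ≠ out → s' r = s r

lemma computes_many {m n : ℕ} (g : Fin n → List.Vector ℕ m → ℕ) (hg : ∀ i, Computes (g i))
    (inp : Fin m → ℕ) (b : ℕ) (hb : ∀ i, inp i < b) (j : ℕ) (hj : j ≤ n) :
    ∃ p : Prog, ∀ s : ℕ → ℕ, ∃ s', Runs p s s' ∧
      (∀ i : Fin n, i.1 < j → s' (b + i) = g i (List.Vector.ofFn fun i => s (inp i))) ∧
      ∀ r, r < b → s' r = s r := by
  induction j with
  | zero =>
    refine ⟨.copy 0 0, fun s => ⟨_, Runs.copy 0 0 s, fun i hi => absurd hi (by omega), ?_⟩⟩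
    simp
  | succ j ih =>
    obtain ⟨p, hp⟩ := ih (by omega)
    obtain ⟨q, hq⟩ := hg ⟨j, by omega⟩ inp (b + j) (b + n) (fun i => by have := hb i; omega)
      (by omega) (fun i => by have := hb i; omega)
    refine ⟨.seq p q, fun s => ?_⟩
    obtain ⟨s₁, r1, a1, b1⟩ := hp s
    obtain ⟨s₂, r2, a2, b2⟩ := hq s₁
    refine ⟨s₂, r1.seq r2, fun i hi => ?_, fun r hr => ?_⟩
    · by_cases hij : i.1 = j
      · obtain ⟨i, hi'⟩ := i
        simp only at hij
        subst hij
        rw [a2]
        congr 2
        exact funext fun i => b1 _ (hb i)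
      · rw [b2 _ (by omega) (by omega), a1 i (by omega)]
    · rw [b2 _ (by omega) (by omega), b1 r hr]

lemma computes_of_prim {n : ℕ} {f : List.Vector ℕ n → ℕ} (hf : Nat.Primrec' f) : Computes f := by
  induction hf with
  | zero =>
    intro inp out b _ _ _
    exact ⟨.zero out, fun s => ⟨_, Runs.zero out s, by simp, fun r _ hr => by simp [hr]⟩⟩
  | succ =>
    intro inp out b _ _ _
    refine ⟨.seq (.copy (inp 0) out) (.inc out), fun s =>
      ⟨_, (Runs.copy _ _ s).seq (Runs.inc _ _), by simp, fun r _ hr => by simp [hr]⟩⟩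
  | get i =>
    intro inp out b _ _ _
    exact ⟨.copy (inp i) out, fun s => ⟨_, Runs.copy _ _ s, by simp, fun r _ hr => by simp [hr]⟩⟩
  | @comp m n f g _ _ ihf ihg =>
    intro inp out b h1 h2 h3
    obtain ⟨p, hp⟩ := computes_many g ihg inp b h1 n le_rfl
    obtain ⟨q, hq⟩ := ihf (fun i => b + i) out (b + n) (fun i => by have := i.2; omega)
      (by omega) (fun i => by omega)
    refine ⟨.seq p q, fun s => ?_⟩
    obtain ⟨s₁, r1, a1, b1⟩ := hp s
    obtain ⟨s₂, r2, a2, b2⟩ := hq s₁
    refine ⟨s₂, r1.seq r2, ?_, fun r hr hr' => ?_⟩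
    · rw [a2]
      congr 2
      exact funext fun i => a1 i i.2
    · rw [b2 r (by omega) hr', b1 r hr]
  | @prec n f g _ _ ihf ihg =>
    intro inp out b h1 h2 h3
    obtain ⟨p, hp⟩ := ihf (fun i => inp i.succ) out b (fun i => h1 _) h2 (fun i => h3 _)
    obtain ⟨q, hq⟩ := ihg (Fin.cons b (Fin.cons out fun i => inp i.succ)) (b + 2) (b + 3)
      (fun i => by
        refine Fin.cases ?_ (fun i => Fin.cases ?_ (fun i => ?_) i) i
        · simp
        · simp only [Fin.cons_succ, Fin.cons_zero]; omega
        · have := h1 i.succ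
          simp only [Fin.cons_succ]; omega)
      (by omega)
      (fun i => by
        refine Fin.cases ?_ (fun i => Fin.cases ?_ (fun i => ?_) i) i
        · simp
        · simp only [Fin.cons_succ, Fin.cons_zero]; omega
        · have := h1 i.succ
          simp only [Fin.cons_succ]; omega)
    let body : Prog := .seq q (.seq (.copy (b + 2) out) (.inc b))
    refine ⟨.seq p (.seq (.zero b) (.seq (.copy (inp 0) (b + 1)) (.loop (b + 1) body))), fun s => ?_⟩
    let t : List.Vector ℕ n := List.Vector.ofFn fun i => s (inp i.succ)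
    let F : ℕ → ℕ := fun y => y.rec (f t) fun y IH => g (y ::ᵥ IH ::ᵥ t)
    have key : ∀ (c y : ℕ) (s₁ : ℕ → ℕ), s₁ (b + 1) = c → s₁ b = y → s₁ out = F y →
        (∀ r, r < b → r ≠ out → s₁ r = s r) →
        ∃ s', Runs (.loop (b + 1) body) s₁ s' ∧ s' out = F (y + c) ∧
          ∀ r, r < b → r ≠ out → s' r = s r := by
      intro c
      induction c with
      | zero => exact fun y s₁ e1 _ e3 e4 => ⟨s₁, Runs.loop_zero e1, e3, e4⟩
      | succ c ih =>
        intro y s₁ e1 e2 e3 e4
        obtain ⟨s₂, r2, a2, b2⟩ := hq (update s₁ (b + 1) (s₁ (b + 1) - 1))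
        have hv : (List.Vector.ofFn fun i => update s₁ (b + 1) (s₁ (b + 1) - 1)
            ((Fin.cons b (Fin.cons out fun i => inp i.succ) : Fin (n + 2) → ℕ) i)) =
            y ::ᵥ F y ::ᵥ t := by
          apply List.Vector.ext
          intro i
          rw [List.Vector.get_ofFn]
          refine Fin.cases ?_ (fun i => Fin.cases ?_ (fun i => ?_) i) i
          · simp [e2]
          · simp only [Fin.cons_succ, Fin.cons_zero, List.Vector.get_cons_succ,
              List.Vector.get_cons_zero]
            rw [update_of_ne (by omega), e3]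
          · simp only [Fin.cons_succ, List.Vector.get_cons_succ, t, List.Vector.get_ofFn]
            have := h1 i.succ
            rw [update_of_ne (by omega), e4 _ this (h3 _)]
        rw [hv] at a2
        obtain ⟨s', r3, a3, b3⟩ := ih (y + 1)
          (update (update s₂ out (s₂ (b + 2))) b (update s₂ out (s₂ (b + 2)) b + 1))
          (by
            rw [update_of_ne (by omega), update_of_ne (by omega), b2 _ (by omega) (by omega),
              update_self, e1]
            rfl)
          (by
            rw [update_self, update_of_ne (by omega), b2 _ (by omega) (by omega),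
              update_of_ne (by omega), e2])
          (by rw [update_of_ne (by omega), update_self, a2])
          (fun r hr hr' => by
            rw [update_of_ne (by omega), update_of_ne hr', b2 _ (by omega) (by omega),
              update_of_ne (by omega), e4 r hr hr'])
        refine ⟨s', Runs.loop_succ (by omega)
          (r2.seq ((Runs.copy _ _ _).seq (Runs.inc _ _))) r3, ?_, b3⟩
        rw [a3, show y + 1 + c = y + (c + 1) by omega]
    obtain ⟨s₁, r1, a1, b1⟩ := hp s
    have h10 := h1 0
    obtain ⟨s', r3, a3, b3⟩ := key (s (inp 0)) 0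
      (update (update s₁ b 0) (b + 1) (update s₁ b 0 (inp 0)))
      (by rw [update_self, update_of_ne (by omega), b1 _ h10 (h3 0)])
      (by rw [update_of_ne (by omega), update_self])
      (by rw [update_of_ne (by omega), update_of_ne (by omega), a1]; rfl)
      (fun r hr hr' => by rw [update_of_ne (by omega), update_of_ne (by omega), b1 r hr hr'])
    refine ⟨s', r1.seq ((Runs.zero _ _).seq ((Runs.copy _ _ _).seq r3)), ?_, b3⟩
    rw [a3, zero_add]
    simp only [List.Vector.head_ofFn, List.Vector.tail_ofFn]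
    rfl

/-- the configuration reaches the empty continuation -/
def PHalts (c : Cfg) : Prop := ∃ s', ReflTransGen PS c ([], s')

lemma not_pHalts_of_inv (I : Cfg → Prop) (hI : ∀ c, I c → ∃ c', TransGen PS c c' ∧ I c')
    (c : Cfg) (hc : I c) : ¬ PHalts c := by
  rintro ⟨s', h⟩
  have key : ∀ c, ReflTransGen PS c ([], s') → ∀ c', ReflTransGen PS c c' → ¬ I c' := by
    intro c h
    induction h using ReflTransGen.head_induction_on with
    | refl =>
      intro c' h' hc'
      obtain ⟨c'', h'', _⟩ := hI c' hc'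
      obtain ⟨d, hd, _⟩ := TransGen.head'_iff.mp (TransGen.trans_right h' h'')
      simp [PS, pstep] at hd
    | head hab _ ih =>
      intro c' h' hc'
      obtain ⟨c'', h'', hc''⟩ := hI c' hc'
      obtain ⟨d, hd, hd'⟩ := TransGen.head'_iff.mp (TransGen.trans_right h' h'')
      have : d = _ := Option.some.inj (hd.symm.trans hab)
      subst this
      exact ih c'' hd' hc''
  exact key c h c ReflTransGen.refl hc

lemma exists_search {g : ℕ → ℕ → ℕ} (hg : Primrec₂ g) :
    ∃ p : Prog, ∀ s : ℕ → ℕ, PHalts ([p], s) ↔ ∃ j, g (s 0) j = 0 := by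
  obtain ⟨q, hq⟩ := computes_of_prim (Nat.Primrec'.prim_iff₂.mpr hg) ![0, 1] 2 3
    (fun i => by fin_cases i <;> simp) (by norm_num) (fun i => by fin_cases i <;> simp)
  have hq' : ∀ s : ℕ → ℕ, ∃ s', Runs q s s' ∧ s' 2 = g (s 0) (s 1) ∧ s' 0 = s 0 ∧ s' 1 = s 1 := by
    intro s
    obtain ⟨s', a, b, c⟩ := hq s
    refine ⟨s', a, ?_, c 0 (by norm_num) (by norm_num), c 1 (by norm_num) (by norm_num)⟩
    rw [b]
    simp
  let lp : Prog := .loop 2 (.seq (.inc 1) q)
  have body : ∀ s : ℕ → ℕ, ∃ s', Runs (.seq (.inc 1) q) (update s 2 (s 2 - 1)) s' ∧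
      s' 2 = g (s 0) (s 1 + 1) ∧ s' 0 = s 0 ∧ s' 1 = s 1 + 1 := by
    intro s
    obtain ⟨s', a, b, c, d⟩ := hq' (update (update s 2 (s 2 - 1)) 1 (update s 2 (s 2 - 1) 1 + 1))
    refine ⟨s', (Runs.inc _ _).seq a, ?_, ?_, ?_⟩
    · simpa using b
    · simpa using c
    · simpa using d
  refine ⟨.seq (.zero 1) (.seq q lp), fun s => ?_⟩
  obtain ⟨s₁, r1, a1, b1, c1⟩ := hq' (update s 1 0)
  simp only [ne_eq, zero_ne_one, not_false_eq_true, update_of_ne, update_self] at a1 b1 c1
  have start : TransGen PS ([Prog.seq (.zero 1) (.seq q lp)], s) ([lp], s₁) :=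
    TransGen.head' rfl (ReflTransGen.head rfl (ReflTransGen.head rfl (r1 _)))
  constructor
  · intro h
    by_contra hne
    push Not at hne
    refine not_pHalts_of_inv (fun c => c = ([Prog.seq (.zero 1) (.seq q lp)], s) ∨
      (c.1 = [lp] ∧ c.2 0 = s 0 ∧ c.2 2 = g (s 0) (c.2 1))) ?_ _ (Or.inl rfl) h
    rintro ⟨k, t⟩ (hc | ⟨rfl, h1, h2⟩)
    · rw [hc]
      exact ⟨_, start, Or.inr ⟨rfl, b1, a1.trans (congrArg _ c1.symm)⟩⟩
    · obtain ⟨t', a, b, c, d⟩ := body t
      simp only at h1 h2
      have : t 2 ≠ 0 := by rw [h2]; exact hne _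
      refine ⟨([lp], t'), TransGen.head' (by simp [PS, pstep, lp, this]) (a _), Or.inr
        ⟨rfl, c.trans h1, ?_⟩⟩
      simp only
      rw [b, d, h1]
  · rintro ⟨j, hj⟩
    have key : ∀ (i : ℕ) (t : ℕ → ℕ), t 0 = s 0 → t 1 + i = j → t 2 = g (s 0) (t 1) →
        ∃ t', Runs lp t t' := by
      intro i
      induction i with
      | zero =>
        intro t _ h2 h3
        exact ⟨t, Runs.loop_zero (by rw [h3, show t 1 = j from h2, hj])⟩
      | succ i ih =>
        intro t h1 h2 h3
        by_cases h0 : t 2 = 0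
        · exact ⟨t, Runs.loop_zero h0⟩
        · obtain ⟨t', a, b, c, d⟩ := body t
          obtain ⟨t'', h⟩ := ih t' (c.trans h1) (by omega) (by rw [b, d, h1])
          exact ⟨t'', Runs.loop_succ h0 a h⟩
    obtain ⟨t', h⟩ := key j s₁ b1 (by omega) (by rw [c1]; exact a1)
    exact ⟨t', start.to_reflTransGen.trans (h [])⟩

open Nat.Partrec (Code) in
lemma exists_undecidable_prog :
    ∃ (p : Prog) (S : ℕ → Prop), ¬ ComputablePred S ∧ ∀ s : ℕ → ℕ, PHalts ([p], s) ↔ S (s 0) := by
  have hg : Primrec₂ fun (n j : ℕ) =>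
      if (Code.evaln j (Denumerable.ofNat Code n) 0).isSome then 0 else 1 := by
    refine Primrec.ite ?_ (Primrec.const 0) (Primrec.const 1)
    refine Primrec.primrecPred ?_
    have := Primrec.option_isSome.comp (Code.primrec_evaln.comp
      ((Primrec.snd.pair ((Primrec.ofNat Code).comp (Primrec.fst (α := ℕ) (β := ℕ)))).pair
        (Primrec.const 0)))
    simpa using this
  obtain ⟨p, hp⟩ := exists_search hg
  refine ⟨p, fun n => (Code.eval (Denumerable.ofNat Code n) 0).Dom, fun h => ?_, fun s => ?_⟩
  · apply ComputablePred.halting_problem 0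
    obtain ⟨f, hf, e⟩ := ComputablePred.computable_iff.mp h
    refine ComputablePred.computable_iff.mpr
      ⟨fun c => f (Encodable.encode c), hf.comp Computable.encode, ?_⟩
    ext c
    have := congrFun e (Encodable.encode c)
    simp only [Denumerable.ofNat_encode] at this
    rw [this]
  · rw [hp]
    beta_reduce
    rw [Part.dom_iff_mem]
    simp only [Code.evaln_complete, ite_eq_left_iff, one_ne_zero, imp_false, not_not,
      Option.isSome_iff_exists]
    exact exists_comm

end Pool.Agent.MP_435b2a_lc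

end

-- part MP_435b2a_lc.RM
section

namespace Pool.Agent.MP_435b2a_lc

open Function Relation

/-- abstract register machine with finite control -/
structure RM (P R : Type) where
  start : P
  r0 : R
  halt : P → Bool
  test : P → R
  nxt : P → Bool → P
  src : P → R → Option R
  add : P → R → Bool
  sub : P → Bool → R → Bool

namespace RM

variable {P R : Type} (M : RM P R)

/-- one step -/
def Step (c c' : P × (R → ℕ)) : Prop :=
  M.halt c.1 = false ∧ c'.1 = M.nxt c.1 (decide (c.2 (M.test c.1) = 0)) ∧
    ∀ r, c'.2 r + (M.sub c.1 (decide (c.2 (M.test c.1) = 0)) r).toNat =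
      (M.src c.1 r).elim 0 c.2 + (M.add c.1 r).toNat

/-- halting -/
def HaltsFrom (c : P × (R → ℕ)) : Prop := ∃ c', ReflTransGen M.Step c c' ∧ M.halt c'.1 = true

/-- every non-halting configuration has a successor -/
def Total : Prop := ∀ c, M.halt c.1 = false → ∃ c', M.Step c c'

end RM

/-- tested register -/
def ftest : List Prog → ℕ
  | .loop r _ :: _ => r
  | _ => 0

/-- next control -/
def fnxt : List Prog → Bool → List Prog
  | [], _ => []
  | .zero _ :: k, _ => k
  | .inc _ :: k, _ => k
  | .copy _ _ :: k, _ => k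
  | .seq p q :: k, _ => p :: q :: k
  | .loop r p :: k, z => if z then k else p :: .loop r p :: k

/-- source register -/
def fsrc : List Prog → ℕ → Option ℕ
  | .zero r :: _, t => if t = r then none else some t
  | .copy a b :: _, t => if t = b then some a else some t
  | _, t => some t

/-- increment -/
def fadd : List Prog → ℕ → Bool
  | .inc r :: _, t => decide (t = r)
  | _, _ => false

/-- decrement -/
def fsub : List Prog → Bool → ℕ → Bool
  | .loop r _ :: _, z, t => !z && decide (t = r)
  | _, _, _ => false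

/-- largest register used by the head instruction -/
def freg : List Prog → ℕ
  | .zero r :: _ => r
  | .inc r :: _ => r
  | .copy a b :: _ => max a b
  | .loop r _ :: _ => r
  | _ => 0

lemma ps_iff (c c' : List Prog) (s s' : ℕ → ℕ) : PS (c, s) (c', s') ↔
    c ≠ [] ∧ c' = fnxt c (decide (s (ftest c) = 0)) ∧
      ∀ r, s' r + (fsub c (decide (s (ftest c) = 0)) r).toNat =
        (fsrc c r).elim 0 s + (fadd c r).toNat := by
  rcases c with _ | ⟨p, k⟩
  · simp [PS, pstep]
  cases p with
  | zero r =>
    simp only [PS, pstep, Option.some.injEq, Prod.mk.injEq, ne_eq, reduceCtorEq, not_false_eq_true,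
      fnxt, fsub, fsrc, fadd, true_and, Bool.toNat_false, add_zero, eq_comm (a := k)]
    refine and_congr_right fun _ => ?_
    rw [funext_iff]
    refine forall_congr' fun t => ?_
    by_cases h : t = r <;> simp [h, eq_comm]
  | inc r =>
    simp only [PS, pstep, Option.some.injEq, Prod.mk.injEq, ne_eq, reduceCtorEq, not_false_eq_true,
      fnxt, fsub, fsrc, fadd, true_and, Bool.toNat_false, add_zero, eq_comm (a := k)]
    refine and_congr_right fun _ => ?_
    rw [funext_iff]
    refine forall_congr' fun t => ?_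
    by_cases h : t = r <;> simp [h, eq_comm]
  | copy a b =>
    simp only [PS, pstep, Option.some.injEq, Prod.mk.injEq, ne_eq, reduceCtorEq, not_false_eq_true,
      fnxt, fsub, fsrc, fadd, true_and, Bool.toNat_false, add_zero, eq_comm (a := k)]
    refine and_congr_right fun _ => ?_
    rw [funext_iff]
    refine forall_congr' fun t => ?_
    by_cases h : t = b <;> simp [h, eq_comm]
  | seq p q =>
    simp only [PS, pstep, Option.some.injEq, Prod.mk.injEq, ne_eq, reduceCtorEq, not_false_eq_true,
      fnxt, fsub, fsrc, fadd, true_and, Bool.toNat_false, add_zero, eq_comm (a := p :: q :: k)]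
    refine and_congr_right fun _ => ?_
    rw [funext_iff]
    refine forall_congr' fun t => ?_
    simp [eq_comm]
  | loop r p =>
    by_cases h0 : s r = 0
    · simp only [PS, pstep, Option.some.injEq, Prod.mk.injEq, ne_eq, reduceCtorEq,
        not_false_eq_true, fnxt, fsub, fsrc, fadd, true_and, Bool.toNat_false, add_zero, ftest, h0,
        if_true, decide_true, eq_comm (a := k)]
      refine and_congr_right fun _ => ?_
      rw [funext_iff]
      refine forall_congr' fun t => ?_
      simp [eq_comm]
    · simp only [PS, pstep, Option.some.injEq, Prod.mk.injEq, ne_eq, reduceCtorEq,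
        not_false_eq_true, fnxt, fsub, fsrc, fadd, true_and, Bool.toNat_false, add_zero, ftest, h0,
        if_false, decide_false, eq_comm (a := p :: Prog.loop r p :: k)]
      refine and_congr_right fun _ => ?_
      rw [funext_iff]
      refine forall_congr' fun t => ?_
      by_cases h : t = r
      · subst h
        simp
        omega
      · simp [h, eq_comm]

/-- continuations reachable while running `p` before `k` -/
def conts : Prog → List Prog → List (List Prog)
  | .zero r, k => [.zero r :: k]
  | .inc r, k => [.inc r :: k]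
  | .copy a b, k => [.copy a b :: k]
  | .seq p q, k => (.seq p q :: k) :: (conts p (q :: k) ++ conts q k)
  | .loop r p, k => (.loop r p :: k) :: conts p (.loop r p :: k)

lemma self_mem_conts (p : Prog) (k : List Prog) : p :: k ∈ conts p k := by
  cases p <;> simp [conts]

lemma conts_closed (p : Prog) : ∀ (k c : List Prog) (z : Bool), c ∈ conts p k →
    fnxt c z ∈ conts p k ∨ fnxt c z = k := by
  induction p with
  | zero r => intro k c z h; simp [conts] at h; simp [h, fnxt]
  | inc r => intro k c z h; simp [conts] at h; simp [h, fnxt]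
  | copy a b => intro k c z h; simp [conts] at h; simp [h, fnxt]
  | seq p q ihp ihq =>
    intro k c z h
    simp only [conts, List.mem_cons, List.mem_append] at h ⊢
    rcases h with rfl | h | h
    · exact Or.inl (Or.inr (Or.inl (self_mem_conts p _)))
    · rcases ihp _ c z h with h | h
      · exact Or.inl (Or.inr (Or.inl h))
      · exact Or.inl (Or.inr (Or.inr (h ▸ self_mem_conts q k)))
    · rcases ihq _ c z h with h | h
      · exact Or.inl (Or.inr (Or.inr h))
      · exact Or.inr h
  | loop r p ih =>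
    intro k c z h
    simp only [conts, List.mem_cons] at h ⊢
    rcases h with rfl | h
    · cases z
      · exact Or.inl (Or.inr (self_mem_conts p _))
      · exact Or.inr rfl
    · rcases ih _ c z h with h | h
      · exact Or.inl (Or.inr h)
      · exact Or.inl (Or.inl h)

lemma ftest_le (c : List Prog) : ftest c ≤ freg c := by
  rcases c with _ | ⟨p, k⟩
  · simp [ftest]
  · cases p <;> simp [ftest, freg]

lemma fsrc_le {c : List Prog} {t a : ℕ} (h : fsrc c t = some a) : a = t ∨ a ≤ freg c := by
  rcases c with _ | ⟨p, k⟩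
  · simp [fsrc] at h; omega
  · cases p <;> simp only [fsrc, freg, Option.some.injEq] at h ⊢
    · split_ifs at h
      simp at h; omega
    · omega
    · split_ifs at h <;> simp at h <;> omega
    · omega
    · omega

lemma f_big {c : List Prog} {t : ℕ} (h : freg c < t) (z : Bool) :
    fsrc c t = some t ∧ fadd c t = false ∧ fsub c z t = false := by
  rcases c with _ | ⟨p, k⟩
  · simp [fsrc, fadd, fsub]
  · cases p <;> simp only [fsrc, freg, fadd, fsub] at h ⊢ <;> simp <;> omega

theorem exists_rm : ∃ (P R : Type) (_ : Finite P) (_ : Finite R) (M : RM P R) (S : ℕ → Prop),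
    ¬ ComputablePred S ∧ M.Total ∧ ∀ s, M.HaltsFrom (M.start, s) ↔ S (s M.r0) := by
  classical
  obtain ⟨p, S, hS, hp⟩ := exists_undecidable_prog
  let L : List (List Prog) := [] :: conts p []
  obtain ⟨K, hK⟩ : ∃ K, ∀ c ∈ L, freg c < K := by
    refine ⟨L.toFinset.sup freg + 1, fun c hc => Nat.lt_succ_of_le ?_⟩
    exact Finset.le_sup (List.mem_toFinset.mpr hc)
  have hK0 : 0 < K := lt_of_le_of_lt (Nat.zero_le _) (hK [] (by simp [L]))
  have hcl : ∀ c ∈ L, ∀ z, fnxt c z ∈ L := by
    intro c hc z
    rcases List.mem_cons.mp hc with rfl | hc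
    · simp [L, fnxt]
    · rcases conts_closed p [] c z hc with h | h
      · exact List.mem_cons_of_mem _ h
      · rw [h]; simp [L]
  let M : RM {c // c ∈ L} (Fin K) :=
    { start := ⟨[p], List.mem_cons_of_mem _ (self_mem_conts p [])⟩
      r0 := ⟨0, hK0⟩
      halt := fun c => decide (c.1 = [])
      test := fun c => ⟨ftest c.1, (ftest_le _).trans_lt (hK _ c.2)⟩
      nxt := fun c z => ⟨fnxt c.1 z, hcl _ c.2 z⟩
      src := fun c t => (fsrc c.1 t).bind fun a => if h : a < K then some ⟨a, h⟩ else none
      add := fun c t => fadd c.1 t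
      sub := fun c z t => fsub c.1 z t }
  let res : (ℕ → ℕ) → Fin K → ℕ := fun s t => s t
  let ext : (Fin K → ℕ) → ℕ → ℕ := fun s t => if h : t < K then s ⟨t, h⟩ else 0
  have res_ext : ∀ s, res (ext s) = s := by
    intro s
    funext t
    simp [res, ext]
  have hsrc : ∀ (c : {c // c ∈ L}) (t : Fin K) (s : ℕ → ℕ),
      (M.src c t).elim 0 (res s) = (fsrc c.1 t).elim 0 s := by
    intro c t s
    simp only [M]
    cases h : fsrc c.1 t with
    | none => simp
    | some a =>
      have : a < K := by
        rcases fsrc_le h with h | h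
        · rw [h]; exact t.2
        · exact h.trans_lt (hK _ c.2)
      simp [this, res]
  have fwd : ∀ (c : {c // c ∈ L}) (s : ℕ → ℕ) (c' : Cfg), PS (c.1, s) c' →
      ∃ h : c'.1 ∈ L, M.Step (c, res s) (⟨c'.1, h⟩, res c'.2) := by
    rintro c s ⟨c', s'⟩ h
    obtain ⟨h1, h2, h3⟩ := (ps_iff _ _ _ _).mp h
    refine ⟨h2 ▸ hcl _ c.2 _, by simpa [M] using h1, Subtype.ext h2, fun r => ?_⟩
    rw [hsrc]
    exact h3 r
  have bwd : ∀ c c', M.Step c c' → PS (c.1.1, ext c.2) (c'.1.1, ext c'.2) := by
    rintro ⟨c, s⟩ ⟨c', s'⟩ ⟨h1, h2, h3⟩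
    have ht : ext s (ftest c.1) = s (M.test c) := by
      simp [ext, M, (ftest_le _).trans_lt (hK _ c.2)]
    refine (ps_iff _ _ _ _).mpr ⟨by simpa [M] using h1, ?_, fun r => ?_⟩
    · simp only [ht]
      exact congrArg Subtype.val h2
    · simp only [ht]
      by_cases hr : r < K
      · have := h3 ⟨r, hr⟩
        rw [← hsrc c ⟨r, hr⟩ (ext s), res_ext]
        simpa [ext, hr] using this
      · obtain ⟨e1, e2, e3⟩ := f_big (c := c.1) (t := r) (lt_of_lt_of_le (hK _ c.2) (by omega))
          (decide (s (M.test c) = 0))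
        simp [e1, e2, e3, ext, hr]
  refine ⟨{c // c ∈ L}, Fin K, inferInstance, inferInstance, M, S, hS, ?_, fun s => ?_⟩
  · rintro ⟨c, s⟩ hc
    have : ∃ c', PS (c.1, ext s) c' := by
      obtain ⟨c, hcL⟩ := c
      rcases c with _ | ⟨q, k⟩
      · simp [M] at hc
      · cases q <;> simp only [PS, pstep]
        any_goals exact ⟨_, rfl⟩
        split_ifs <;> exact ⟨_, rfl⟩
    obtain ⟨c', h⟩ := this
    obtain ⟨h1, h2⟩ := fwd c (ext s) c' h
    rw [res_ext] at h2
    exact ⟨_, h2⟩
  · have e0 : s M.r0 = ext s 0 := by simp [ext, M, hK0]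
    rw [e0, ← hp]
    constructor
    · rintro ⟨c', h, hh⟩
      have := ReflTransGen.lift (fun c : {c // c ∈ L} × (Fin K → ℕ) => ((c.1.1, ext c.2) : Cfg))
        bwd _ _ h
      have e : c'.1.1 = [] := by simpa [M] using hh
      have h2 : ReflTransGen PS ([p], ext s) (c'.1.1, ext c'.2) := this
      rw [e] at h2
      exact ⟨_, h2⟩
    · rintro ⟨s', h⟩
      have key : ∀ c' : Cfg, ReflTransGen PS ([p], ext s) c' →
          ∃ h : c'.1 ∈ L, ReflTransGen M.Step (M.start, s) (⟨c'.1, h⟩, res c'.2) := by
        intro c' h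
        induction h with
        | refl => exact ⟨M.start.2, by rw [res_ext]⟩
        | tail _ h2 ih =>
          obtain ⟨h3, h4⟩ := ih
          obtain ⟨h5, h6⟩ := fwd ⟨_, h3⟩ _ _ h2
          exact ⟨h5, h4.tail h6⟩
      obtain ⟨h1, h2⟩ := key _ h
      exact ⟨_, h2, by simp [M]⟩

end Pool.Agent.MP_435b2a_lc

end
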