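import Pool.Agent.MP_435b2a_lc.Defs
import Pool.Agent.MP_435b2a_lc.Mg.RM

-- part MP_435b2a_lc.Shuf
section

namespace Pool.Agent.MP_435b2a_lc

open Computability

/-- inductive form of the shuffle -/
inductive Shuf {α : Type} : List α → List α → List α → Prop
  | nil : Shuf [] [] []
  | left (a : α) {u v w : List α} : Shuf u v w → Shuf (a :: u) v (a :: w)
  | right (a : α) {u v w : List α} : Shuf u v w → Shuf u (a :: v) (a :: w)

variable {α : Type}

lemma Shuf.nil_left (v : List α) : Shuf [] v v := by
  induction v with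
  | nil => exact .nil
  | cons a v ih => exact .right a ih

lemma Shuf.nil_right (u : List α) : Shuf u [] u := by
  induction u with
  | nil => exact .nil
  | cons a u ih => exact .left a ih

lemma Shuf.append {u v w u' v' w' : List α} (h : Shuf u v w) (h' : Shuf u' v' w') :
    Shuf (u ++ u') (v ++ v') (w ++ w') := by
  induction h with
  | nil => exact h'
  | left a _ ih => exact .left a ih
  | right a _ ih => exact .right a ih

lemma Shuf.eq_of_nil {u v w : List α} (h : Shuf u v w) (hu : u = []) : v = w := by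
  induction h with
  | nil => rfl
  | left a _ _ => simp at hu
  | right a _ ih => rw [ih hu]

lemma Shuf.countP {u v w : List α} (h : Shuf u v w) (p : α → Bool) :
    w.countP p = u.countP p + v.countP p := by
  induction h with
  | nil => simp
  | left a _ ih => simp only [List.countP_cons, ih]; omega
  | right a _ ih => simp only [List.countP_cons, ih]; omega

lemma Shuf.map {β : Type} (f : α → β) {u v w : List α} (h : Shuf u v w) :
    Shuf (u.map f) (v.map f) (w.map f) := by
  induction h with
  | nil => exact .nil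
  | left a _ ih => exact .left _ ih
  | right a _ ih => exact .right _ ih

lemma Shuf.filterMap {β : Type} (f : α → Option β) {u v w : List α} (h : Shuf u v w)
    (hu : ∀ y ∈ u, f y = none) : w.filterMap f = v.filterMap f := by
  induction h with
  | nil => rfl
  | left a _ ih =>
    rw [List.filterMap_cons_none (hu a (by simp))]
    exact ih fun y hy => hu y (by simp [hy])
  | right a _ ih => simp only [List.filterMap_cons, ih hu]

lemma Shuf.sublist {u v w : List α} (h : Shuf u v w) :
    ∀ l : List α, l.Sublist w → (∀ y ∈ l, y ∉ u) → l.Sublist v := by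
  induction h with
  | nil => exact fun l hl _ => hl
  | left a _ ih =>
    intro l hl hy
    rcases List.sublist_cons_iff.mp hl with h | ⟨r, rfl, _⟩
    · exact ih l h fun y h1 h2 => hy y h1 (by simp [h2])
    · exact absurd (by simp) (hy a (by simp))
  | right a _ ih =>
    intro l hl hy
    rcases List.sublist_cons_iff.mp hl with h | ⟨r, rfl, h⟩
    · exact (ih l h hy).cons a
    · exact (ih r h fun y h1 => hy y (by simp [h1])).cons_cons a

lemma Shuf.of_sublist {u w : List α} (h : u.Sublist w) : ∃ g, Shuf u g w := by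
  induction h with
  | slnil => exact ⟨[], .nil⟩
  | cons a _ ih => obtain ⟨g, hg⟩ := ih; exact ⟨a :: g, .right a hg⟩
  | cons_cons a _ ih => obtain ⟨g, hg⟩ := ih; exact ⟨g, .left a hg⟩

lemma mem_shuffleWords {u v w : List α} : w ∈ shuffleWords u v ↔ Shuf u v w := by
  constructor
  · rintro ⟨l, -, rfl, rfl, rfl⟩
    induction l with
    | nil => exact .nil
    | cons p l ih =>
      simp only [List.map_cons, List.flatten_cons]
      have := (Shuf.nil_right p.1).append (Shuf.nil_left p.2)
      rw [List.append_nil, List.nil_append] at this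
      exact this.append ih
  · intro h
    induction h with
    | nil => exact ⟨[([], [])], by simp, rfl, rfl, rfl⟩
    | left a _ ih =>
      obtain ⟨l, -, rfl, rfl, rfl⟩ := ih
      exact ⟨([a], []) :: l, by simp, rfl, rfl, rfl⟩
    | right a _ ih =>
      obtain ⟨l, -, rfl, rfl, rfl⟩ := ih
      exact ⟨([], [a]) :: l, by simp, rfl, rfl, rfl⟩

lemma finite_suffixes {F : Language α} (hF : Set.Finite F) :
    {s : List α | s = [] ∨ ∃ f ∈ F, s <:+ f}.Finite := by
  have h1 : (⋃ f ∈ (F : Set (List α)), {s : List α | s ∈ f.tails}).Finite :=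
    hF.biUnion fun f _ => List.finite_toSet _
  refine (h1.insert []).subset ?_
  rintro s (rfl | ⟨f, hf, hs⟩)
  · exact Set.mem_insert _ _
  · exact Set.mem_insert_of_mem _ (Set.mem_biUnion hf ((List.mem_tails _ _).mpr hs))

lemma regular_of_finite {F : Language α} (hF : Set.Finite F) : F.IsRegular := by
  refine .of_finite_range_leftQuotient ((finite_suffixes hF).finite_subsets.subset ?_)
  rintro _ ⟨x, rfl⟩ s hs
  exact Or.inr ⟨x ++ s, hs, List.suffix_append _ _⟩

lemma regular_kstar {F : Language α} (hF : Set.Finite F) : (F∗).IsRegular := by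
  refine .of_finite_range_leftQuotient
    (((finite_suffixes hF).finite_subsets.image
      fun S => ({w | ∃ s ∈ S, ∃ w' ∈ F∗, w = s ++ w'} : Language α)).subset ?_)
  rintro _ ⟨x, rfl⟩
  refine ⟨{s | (s = [] ∨ ∃ f ∈ F, s <:+ f) ∧ x ++ s ∈ F∗}, fun s hs => hs.1, ?_⟩
  ext w
  constructor
  · rintro ⟨s, ⟨-, hs⟩, w', hw', rfl⟩
    obtain ⟨L, e, hL⟩ := Language.mem_kstar.mp hs
    obtain ⟨L', e', hL'⟩ := Language.mem_kstar.mp hw'
    refine Language.mem_kstar.mpr ⟨L ++ L', ?_, fun y hy => ?_⟩
    · rw [List.flatten_append, ← e, ← e', List.append_assoc]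
    · rcases List.mem_append.mp hy with h | h
      · exact hL y h
      · exact hL' y h
  · intro hw
    obtain ⟨L, e, hL⟩ := Language.mem_kstar.mp hw
    clear hw
    induction L generalizing x with
    | nil =>
      obtain ⟨rfl, rfl⟩ := List.append_eq_nil_iff.mp e
      exact ⟨[], ⟨Or.inl rfl, Language.nil_mem_kstar _⟩, [], Language.nil_mem_kstar _, rfl⟩
    | cons f L ih =>
      have hf := hL f (by simp)
      have hL' : ∀ y ∈ L, y ∈ F := fun y hy => hL y (by simp [hy])
      rw [List.flatten_cons] at e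
      rcases List.append_eq_append_iff.mp e with ⟨a, rfl, rfl⟩ | ⟨a, rfl, e'⟩
      · exact ⟨a, ⟨Or.inr ⟨_, hf, List.suffix_append _ _⟩,
          Language.mem_kstar.mpr ⟨[x ++ a], by simp, by simpa using hf⟩⟩, _,
          Language.mem_kstar.mpr ⟨L, rfl, hL'⟩, rfl⟩
      · obtain ⟨s, ⟨h1, h2⟩, w', h3, h4⟩ := ih a e'.symm hL'
        refine ⟨s, ⟨h1, ?_⟩, w', h3, h4⟩
        obtain ⟨L2, e2, hL2⟩ := Language.mem_kstar.mp h2
        refine Language.mem_kstar.mpr ⟨f :: L2, ?_, ?_⟩
        · rw [List.flatten_cons, ← e2, List.append_assoc]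
        · intro y hy
          rcases List.mem_cons.mp hy with rfl | h
          · exact hf
          · exact hL2 y h

lemma Shuf.cons_right_iff {a : α} {u g w : List α} : Shuf u (a :: g) w ↔
    ∃ u₀ u₁ w₁, u = u₀ ++ u₁ ∧ w = u₀ ++ a :: w₁ ∧ Shuf u₁ g w₁ := by
  constructor
  · intro h
    generalize hv : a :: g = v at h
    induction h with
    | nil => simp at hv
    | left b _ ih =>
      obtain ⟨u₀, u₁, w₁, rfl, rfl, h⟩ := ih hv
      exact ⟨b :: u₀, u₁, w₁, rfl, rfl, h⟩
    | right b h _ =>
      obtain ⟨rfl, rfl⟩ := List.cons.inj hv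
      exact ⟨[], _, _, rfl, rfl, h⟩
  · rintro ⟨u₀, u₁, w₁, rfl, rfl, h⟩
    exact (Shuf.nil_right u₀).append (.right a h)

lemma Shuf.nil_right_iff {u w : List α} : Shuf u [] w ↔ u = w := by
  constructor
  · intro h
    generalize hv : ([] : List α) = v at h
    induction h with
    | nil => rfl
    | left b _ ih => rw [ih hv]
    | right b _ _ => simp at hv
  · rintro rfl
    exact Shuf.nil_right u

lemma regular_quot {L R : Language α} (hL : L.IsRegular) (hR : R.IsRegular) :
    Language.IsRegular {g | ∃ u ∈ L, ∃ w ∈ R, Shuf u g w} := by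
  classical
  obtain ⟨σ, _, D, rfl⟩ := hL
  obtain ⟨τ, _, E, rfl⟩ := hR
  let M : DFA α (Set (σ × τ)) :=
    { step := fun S a => {x | ∃ y ∈ S, ∃ u₀, x = (D.evalFrom y.1 u₀, E.step (E.evalFrom y.2 u₀) a)}
      start := {(D.start, E.start)}
      accept := {S | ∃ y ∈ S, ∃ u, D.evalFrom y.1 u ∈ D.accept ∧ E.evalFrom y.2 u ∈ E.accept} }
  have key : ∀ (g : List α) (S : Set (σ × τ)), M.evalFrom S g ∈ M.accept ↔
      ∃ y ∈ S, ∃ u w, Shuf u g w ∧ D.evalFrom y.1 u ∈ D.accept ∧ E.evalFrom y.2 w ∈ E.accept := by
    intro g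
    induction g with
    | nil =>
      intro S
      simp only [DFA.evalFrom_nil, Shuf.nil_right_iff, exists_eq_left']
      rfl
    | cons a g ih =>
      intro S
      rw [DFA.evalFrom_cons, ih]
      constructor
      · rintro ⟨_, ⟨y, hy, u₀, rfl⟩, u, w, h, h1, h2⟩
        refine ⟨y, hy, u₀ ++ u, u₀ ++ a :: w, Shuf.cons_right_iff.mpr ⟨_, _, _, rfl, rfl, h⟩, ?_, ?_⟩
        · rwa [DFA.evalFrom_of_append]
        · rwa [DFA.evalFrom_of_append, DFA.evalFrom_cons]
      · rintro ⟨y, hy, u, w, h, h1, h2⟩
        obtain ⟨u₀, u₁, w₁, rfl, rfl, h'⟩ := Shuf.cons_right_iff.mp h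
        rw [DFA.evalFrom_of_append] at h1
        rw [DFA.evalFrom_of_append, DFA.evalFrom_cons] at h2
        exact ⟨_, ⟨y, hy, u₀, rfl⟩, u₁, w₁, h', h1, h2⟩
  refine ⟨Set (σ × τ), inferInstance, M, ?_⟩
  ext g
  rw [DFA.mem_accepts, DFA.eval, key]
  constructor
  · rintro ⟨_, rfl, u, w, h, h1, h2⟩
    exact ⟨u, h1, w, h2, h⟩
  · rintro ⟨u, h1, w, h2, h⟩
    exact ⟨_, rfl, u, w, h, h1, h2⟩

section garbage

variable {A C : Type} (cs : List C)

/-- choice letter -/
def chL (c : C) : Option (A ⊕ C) := some (.inr c)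

/-- ordinary letter -/
def leL (a : A) : Option (A ⊕ C) := some (.inl a)

/-- block of a letter -/
def blk (a : A) : List (Option (A ⊕ C)) := leL a :: none :: cs.map chL

/-- padded word -/
def enc (x : List A) : List (Option (A ⊕ C)) := (x.map (blk cs)).flatten

/-- word with choices -/
def inter (l : List (A × C)) : List (Option (A ⊕ C)) :=
  (l.map fun p => [leL p.1, chL p.2]).flatten

/-- padding blocks -/
def padB : Language (Option (A ⊕ C)) :=
  {w | ∃ l : List C, l.length + 1 = cs.length ∧ w = none :: l.map chL}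

/-- single letters -/
def sgl : Language (Option (A ⊕ C)) := {w | ∃ a : A, w = [leL a]}

/-- the fixed regular language -/
def L1 : Language (Option (A ⊕ C)) := (padB cs)∗ + sgl

/-- the padded words -/
def RR : Language (Option (A ⊕ C)) := {w | ∃ x : List A, w = enc cs x}

/-- garbage -/
def GG : Language (Option (A ⊕ C)) := {g | ¬ ∃ u ∈ L1 cs, ∃ w ∈ RR cs, Shuf u g w}

lemma L1_regular [Finite A] [Finite C] : (L1 (A := A) cs).IsRegular := by
  refine (regular_kstar ?_).add (regular_of_finite ?_)
  · refine ((List.finite_length_eq C (cs.length - 1)).image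
      fun l => (none :: l.map chL : List (Option (A ⊕ C)))).subset ?_
    rintro _ ⟨l, h, rfl⟩
    exact ⟨l, by simp; omega, rfl⟩
  · refine (Set.finite_range fun a : A => [(leL a : Option (A ⊕ C))]).subset ?_
    rintro _ ⟨a, rfl⟩
    exact ⟨a, rfl⟩

lemma RR_regular [Finite A] : (RR (A := A) cs).IsRegular := by
  have : RR (A := A) cs = KStar.kstar (α := Language _) (Set.range (blk cs)) := by
    ext w
    rw [Language.mem_kstar]
    constructor
    · rintro ⟨x, rfl⟩
      refine ⟨_, rfl, fun y hy => ?_⟩
      obtain ⟨a, _, rfl⟩ := List.mem_map.mp hy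
      exact ⟨a, rfl⟩
    · rintro ⟨L, rfl, hL⟩
      induction L with
      | nil => exact ⟨[], rfl⟩
      | cons f L ih =>
        obtain ⟨x, hx⟩ := ih fun y hy => hL y (by simp [hy])
        obtain ⟨a, rfl⟩ := hL f (by simp)
        exact ⟨a :: x, by simp [enc, hx]⟩
  rw [this]
  exact regular_kstar (Set.finite_range _)

lemma GG_regular [Finite A] [Finite C] : (GG (A := A) cs).IsRegular :=
  (regular_quot (L1_regular cs) (RR_regular cs)).compl

/-- kinds of letters -/
def kind : Option (A ⊕ C) → ℕ
  | none => 0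
  | some (.inl _) => 1
  | some (.inr _) => 2

/-- number of letters of a kind -/
def num (i : ℕ) (w : List (Option (A ⊕ C))) : ℕ := w.countP fun y => decide (kind y = i)

lemma num_shuf {u v w : List (Option (A ⊕ C))} (h : Shuf u v w) (i : ℕ) :
    num i w = num i u + num i v := h.countP _

lemma num_append (i : ℕ) (u v : List (Option (A ⊕ C))) : num i (u ++ v) = num i u + num i v :=
  List.countP_append

lemma num_ch (l : List C) : num 0 (l.map (chL (A := A))) = 0 ∧ num 1 (l.map (chL (A := A))) = 0 ∧
    num 2 (l.map (chL (A := A))) = l.length := by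
  induction l with
  | nil => simp [num]
  | cons a l ih => simp [num, chL, kind]

lemma num_cons (i : ℕ) (y : Option (A ⊕ C)) (w : List (Option (A ⊕ C))) :
    num i (y :: w) = num i w + if kind y = i then 1 else 0 := by
  simp [num, List.countP_cons]

lemma num_enc (x : List A) : num 0 (enc cs x) = x.length ∧ num 1 (enc cs x) = x.length ∧
    num 2 (enc cs x) = cs.length * x.length := by
  induction x with
  | nil => simp [num, enc]
  | cons a x ih =>
    have e : enc cs (a :: x) = blk cs a ++ enc cs x := by simp [enc]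
    obtain ⟨h1, h2, h3⟩ := num_ch (A := A) cs
    simp only [e, num_append, blk, num_cons, ih, h1, h2, h3, leL, kind, List.length_cons]
    refine ⟨by simp; omega, by simp; omega, by simp; ring⟩

lemma num_pad {u : List (Option (A ⊕ C))} (hu : u ∈ (padB cs)∗) :
    num 1 u = 0 ∧ num 2 u + num 0 u = cs.length * num 0 u ∧ (num 0 u = 0 → u = []) := by
  obtain ⟨L, rfl, hL⟩ := Language.mem_kstar.mp hu
  clear hu
  induction L with
  | nil => simp [num]
  | cons f L ih =>
    obtain ⟨i1, i2, -⟩ := ih fun y hy => hL y (by simp [hy])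
    obtain ⟨l, hl, rfl⟩ := hL f (by simp)
    obtain ⟨h1, h2, h3⟩ := num_ch (A := A) l
    simp only [List.flatten_cons, num_append, num_cons, h1, h2, h3, i1, kind]
    refine ⟨by simp, ?_, by simp⟩
    simp only [OfNat.zero_ne_ofNat, if_false, if_true, add_zero, zero_add, mul_add, mul_one]
    omega

lemma num_single (a : A) : num 0 [(leL a : Option (A ⊕ C))] = 0 ∧
    num 1 [(leL a : Option (A ⊕ C))] = 1 ∧ num 2 [(leL a : Option (A ⊕ C))] = 0 := by
  simp [num, leL, kind]

lemma mem_GG {g : List (Option (A ⊕ C))} {n j : ℕ} (h1 : num 1 g + 1 = n) (h0 : num 0 g + j = n)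
    (hj : 0 < j) (h2 : num 2 g + cs.length * j = cs.length * n + j) : g ∈ GG cs := by
  rintro ⟨u, hu | ⟨a, rfl⟩, _, ⟨x, rfl⟩, h⟩
  · obtain ⟨e0, e1, e2⟩ := num_enc cs x
    obtain ⟨f1, f2, -⟩ := num_pad cs hu
    have g0 := num_shuf h 0
    have g1 := num_shuf h 1
    have g2 := num_shuf h 2
    obtain rfl : n = x.length + 1 := by omega
    obtain rfl : j = num 0 u + 1 := by omega
    rw [mul_add, mul_add] at h2
    omega
  · obtain ⟨e0, e1, e2⟩ := num_enc cs x
    obtain ⟨f0, f1, f2⟩ := num_single (C := C) a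
    have g0 := num_shuf h 0
    have g1 := num_shuf h 1
    omega

lemma garbage_cover (hcs : cs ≠ []) {w : List (Option (A ⊕ C))} (hw : w ∉ RR cs) :
    ∃ u ∈ L1 cs, ∃ g ∈ GG cs, Shuf u g w := by
  by_cases hG : w ∈ GG cs
  · exact ⟨[], Or.inl (Language.nil_mem_kstar _), w, hG, Shuf.nil_left w⟩
  obtain ⟨u, hu | ⟨a, rfl⟩, _, ⟨x, rfl⟩, h⟩ := not_not.mp hG
  · obtain ⟨e0, e1, e2⟩ := num_enc cs x
    obtain ⟨f1, f2, f3⟩ := num_pad cs hu
    have g0 := num_shuf h 0
    have g1 := num_shuf h 1
    have g2 := num_shuf h 2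
    have hj : 0 < num 0 u := Nat.pos_of_ne_zero fun h0 => hw ⟨x, h.eq_of_nil (f3 h0)⟩
    have hpos : 0 < num 1 w := by omega
    obtain ⟨y, hy, hk⟩ := List.countP_pos_iff.mp hpos
    obtain ⟨a, rfl⟩ : ∃ a, y = leL a := by
      rcases y with _ | a | c
      · simp [kind] at hk
      · exact ⟨a, rfl⟩
      · simp [kind] at hk
    obtain ⟨g, hg⟩ := Shuf.of_sublist (List.singleton_sublist.mpr hy)
    obtain ⟨k0, k1, k2⟩ := num_single (C := C) a
    have l0 := num_shuf hg 0
    have l1 := num_shuf hg 1
    have l2 := num_shuf hg 2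
    exact ⟨_, Or.inr ⟨a, rfl⟩, g, mem_GG cs (n := x.length) (j := num 0 u) (by omega) (by omega) hj
      (by omega), hg⟩
  · obtain ⟨e0, e1, e2⟩ := num_enc cs x
    obtain ⟨f0, f1, f2⟩ := num_single (C := C) a
    have g0 := num_shuf h 0
    have g1 := num_shuf h 1
    have g2 := num_shuf h 2
    obtain ⟨c, t, rfl⟩ := List.exists_cons_of_ne_nil hcs
    obtain ⟨b, x, rfl⟩ := List.exists_cons_of_ne_nil (l := x) (by rintro rfl; simp at e1; omega)
    have hs : (none :: t.map chL).Sublist (enc (c :: t) (b :: x)) := by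
      have e : enc (c :: t) (b :: x) = blk (c :: t) b ++ enc (c :: t) x := by simp [enc]
      rw [e]
      refine List.Sublist.trans ?_ (List.sublist_append_left _ _)
      exact ((List.sublist_cons_self _ _).cons_cons none).cons _
    obtain ⟨g, hg⟩ := Shuf.of_sublist (h.sublist _ hs (by simp [leL, chL]))
    obtain ⟨k0, k1, k2⟩ := num_ch (A := A) t
    have l0 := num_shuf hg 0
    have l1 := num_shuf hg 1
    have l2 := num_shuf hg 2
    simp only [num_cons, kind, k0, k1, k2] at l0 l1 l2
    simp only [List.length_cons] at e0 e1 e2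
    refine ⟨_, Or.inl (Language.mem_kstar.mpr ⟨[none :: t.map chL], by simp, ?_⟩), g,
      mem_GG _ (n := x.length + 1) (j := 1) (by simp at l1; omega) (by simp at l0; omega) one_pos
        (by simp at l2 ⊢; omega), hg⟩
    simpa using ⟨t, rfl, rfl⟩

/-- projection to ordinary letters -/
def prL : Option (A ⊕ C) → Option A
  | some (.inl a) => some a
  | _ => none

lemma prL_enc (x : List A) : (enc cs x).filterMap prL = x := by
  induction x with
  | nil => rfl
  | cons a x ih =>
    have e : enc cs (a :: x) = blk cs a ++ enc cs x := by simp [enc]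
    rw [e, List.filterMap_append, ih]
    simp [blk, leL, prL, chL, List.filterMap_map]

lemma prL_inter (l : List (A × C)) : (inter l).filterMap prL = l.map Prod.fst := by
  induction l with
  | nil => rfl
  | cons p l ih =>
    have e : inter (p :: l) = [leL p.1, chL p.2] ++ inter l := by simp [inter]
    rw [e, List.filterMap_append, ih]
    simp [leL, prL, chL]

lemma num_inter (l : List (A × C)) : num 0 (inter l) = 0 := by
  induction l with
  | nil => rfl
  | cons p l ih =>
    have e : inter (p :: l) = leL p.1 :: chL p.2 :: inter l := by simp [inter]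
    rw [e, num_cons, num_cons, ih]
    simp [leL, chL, kind]

theorem shuffle_top_iff (hne : cs ≠ []) (hcs : ∀ c, c ∈ cs) (Good : List (A × C) → Prop) :
    (∀ w, ∃ u ∈ L1 cs, ∃ v, ((∃ l, Good l ∧ v = inter l) ∨ v ∈ GG cs) ∧ Shuf u v w) ↔
      ∀ x : List A, ∃ l, l.map Prod.fst = x ∧ Good l := by
  constructor
  · intro h x
    obtain ⟨u, hu, v, ⟨l, hl, rfl⟩ | hv, hs⟩ := h (enc cs x)
    · refine ⟨l, ?_, hl⟩
      rcases hu with hu | ⟨a, rfl⟩
      · rw [← prL_inter, ← hs.filterMap prL, prL_enc]
        intro y hy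
        have := List.countP_eq_zero.mp (num_pad cs hu).1 y hy
        rcases y with _ | a | c
        · rfl
        · simp [kind] at this
        · rfl
      · obtain ⟨e0, e1, -⟩ := num_enc cs x
        obtain ⟨f0, f1, -⟩ := num_single (C := C) a
        have g0 := num_shuf hs 0
        have g1 := num_shuf hs 1
        have := num_inter l
        omega
    · exact absurd ⟨u, hu, _, ⟨x, rfl⟩, hs⟩ hv
  · intro h w
    by_cases hw : w ∈ RR cs
    · obtain ⟨x, rfl⟩ := hw
      obtain ⟨l, rfl, hl⟩ := h x
      have key : ∀ l : List (A × C), ∃ L : List (List (Option (A ⊕ C))), (∀ y ∈ L, y ∈ padB cs) ∧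
          Shuf L.flatten (inter l) (enc cs (l.map Prod.fst)) := by
        intro l
        induction l with
        | nil => exact ⟨[], by simp, .nil⟩
        | cons p l ih =>
          obtain ⟨L, h1, h2⟩ := ih
          obtain ⟨l₁, l₂, e⟩ := List.append_of_mem (hcs p.2)
          refine ⟨(none :: (l₁ ++ l₂).map chL) :: L, fun y hy => ?_, ?_⟩
          · rcases List.mem_cons.mp hy with rfl | hy
            · exact ⟨_, by rw [e]; simp; omega, rfl⟩
            · exact h1 y hy
          · have e1 : inter (p :: l) = [leL p.1, chL p.2] ++ inter l := by simp [inter]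
            have e2 : enc cs ((p :: l).map Prod.fst) = blk cs p.1 ++ enc cs (l.map Prod.fst) := by
              simp [enc]
            rw [e1, e2, List.flatten_cons]
            refine Shuf.append ?_ h2
            rw [blk, e, List.map_append, List.map_append, List.map_cons]
            exact .right _ (.left _ ((Shuf.nil_right _).append (.right _ (Shuf.nil_right _))))
      obtain ⟨L, h1, h2⟩ := key l
      exact ⟨_, Or.inl (Language.mem_kstar.mpr ⟨L, rfl, h1⟩), _, Or.inl ⟨l, hl, rfl⟩, h2⟩
    · obtain ⟨u, hu, g, hg, hs⟩ := garbage_cover cs hne hw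
      exact ⟨u, hu, g, Or.inr hg, hs⟩

end garbage

end Pool.Agent.MP_435b2a_lc

end

-- part MP_435b2a_lc.Check
section

namespace Pool.Agent.MP_435b2a_lc

open Function Relation

/-- real-time deterministic counter automaton with one reversal -/
structure CA (Q A : Type) where
  δ : Q → A → Bool → Q × ℤ
  start : Q
  acc : Q → Prop
  down : Q → Prop
  unit : ∀ q a z, |(δ q a z).2| ≤ 1
  nz : ∀ q a, 0 ≤ (δ q a true).2
  dec_down : ∀ q a z, (δ q a z).2 < 0 → down (δ q a z).1
  down_down : ∀ q a z, down q → down (δ q a z).1 ∧ (δ q a z).2 ≤ 0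

/-- one move -/
def CA.step {Q A : Type} (N : CA Q A) (c : Q × ℕ) (a : A) : Q × ℕ :=
  ((N.δ c.1 a (decide (c.2 = 0))).1, (c.2 + (N.δ c.1 a (decide (c.2 = 0))).2).toNat)

/-- acceptance with a guessed second component -/
def CA.Acc {Q A C : Type} (N : CA Q (A × C)) : Q × ℕ → List A → Prop
  | c, [] => N.acc c.1
  | c, a :: w => ∃ ch, N.Acc (N.step c (a, ch)) w

/-- states of the checker -/
inductive St (P R : Type)
  | init
  | scan (b : Bool)
  | up (p : P) (r : R) (z : Bool)
  | down (t : Bool) (o : Option R)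
  | acc
  | rej

/-- guesses of the checker -/
inductive Ch (R : Type)
  | skip
  | tag
  | ini
  | step (r : R)

instance {P R : Type} [Finite P] [Finite R] : Finite (St P R) :=
  Finite.of_surjective
    (fun x : Option Bool ⊕ (P × R × Bool) ⊕ (Bool × Option R) ⊕ Bool => match x with
      | .inl none => St.init
      | .inl (some b) => St.scan b
      | .inr (.inl (p, r, z)) => St.up p r z
      | .inr (.inr (.inl (t, o))) => St.down t o
      | .inr (.inr (.inr true)) => St.acc
      | .inr (.inr (.inr false)) => St.rej)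
    (fun s => match s with
      | .init => ⟨.inl none, rfl⟩
      | .scan b => ⟨.inl (some b), rfl⟩
      | .up p r z => ⟨.inr (.inl (p, r, z)), rfl⟩
      | .down t o => ⟨.inr (.inr (.inl (t, o))), rfl⟩
      | .acc => ⟨.inr (.inr (.inr true)), rfl⟩
      | .rej => ⟨.inr (.inr (.inr false)), rfl⟩)

instance {R : Type} [Finite R] : Finite (Ch R) :=
  Finite.of_surjective
    (fun x : Option Bool ⊕ R => match x with
      | .inl none => Ch.skip
      | .inl (some true) => Ch.tag
      | .inl (some false) => Ch.ini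
      | .inr r => Ch.step r)
    (fun s => match s with
      | .skip => ⟨.inl none, rfl⟩
      | .tag => ⟨.inl (some true), rfl⟩
      | .ini => ⟨.inl (some false), rfl⟩
      | .step r => ⟨.inr r, rfl⟩)

variable {P R : Type} [DecidableEq P] [DecidableEq R] (M : RM P R)

/-- whether a letter is counted -/
def hit (t : Bool) (o : Option R) : Option R → Bool
  | none => t
  | some a => decide (o = some a)

/-- move on a header letter while scanning -/
def hdr (first : Bool) (p : P) : Ch R → St P R × ℤ
  | .skip => (.scan (M.halt p), 0)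
  | .tag => (.down true none, 0)
  | .ini => if first then (.down false (some M.r0), 0) else (.scan (M.halt p), 0)
  | .step r => (.up p r true, (M.add p r).toNat)

/-- transition function of the checker -/
def cδ : St P R → (P ⊕ Option R) × Ch R → Bool → St P R × ℤ
  | .init, (.inl p, ch), _ => if p = M.start then hdr M true p ch else (.acc, 0)
  | .init, (.inr _, _), _ => (.acc, 0)
  | .scan _, (.inl p, ch), _ => hdr M false p ch
  | .scan _, (.inr _, _), _ => (.scan false, 0)
  | .up p r z, (.inl p', _), e =>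
      if M.halt p = true ∨ p' ≠ M.nxt p z then (.acc, 0)
      else if M.sub p z r then (if e then (.acc, 0) else (.down true (some r), -1))
      else (.down true (some r), 0)
  | .up p r z, (.inr x, _), _ =>
      (.up p r (z && !hit false (some (M.test p)) x), (hit false (M.src p r) x).toNat)
  | .down _ _, (.inl _, _), e => if e then (.rej, 0) else (.acc, 0)
  | .down t o, (.inr x, _), e =>
      if hit t o x then (if e then (.acc, 0) else (.down t o, -1)) else (.down t o, 0)
  | .acc, _, _ => (.acc, 0)
  | .rej, _, _ => (.rej, 0)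

/-- accepting states -/
def cacc : St P R → Prop
  | .init => True
  | .scan b => b = false
  | .acc => True
  | _ => False

/-- states of the decreasing phase -/
def cdown : St P R → Prop
  | .down _ _ => True
  | .acc => True
  | .rej => True
  | _ => False

lemma toNat_abs_le (b : Bool) : |((b.toNat : ℕ) : ℤ)| ≤ 1 := by cases b <;> simp

/-- the checker -/
def checker : CA (St P R) ((P ⊕ Option R) × Ch R) where
  δ := cδ M
  start := .init
  acc := cacc
  down := cdown
  unit := by
    rintro q ⟨a | x, ch⟩ z <;> cases q <;> cases ch <;> simp only [cδ, hdr] <;>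
      (try split_ifs) <;> first | exact toNat_abs_le _ | simp
  nz := by
    rintro q ⟨a | x, ch⟩ <;> cases q <;> cases ch <;> simp only [cδ, hdr] <;>
      (try split_ifs) <;> simp
  dec_down := by
    rintro q ⟨a | x, ch⟩ z <;> cases q <;> cases ch <;> simp only [cδ, hdr] <;>
      (try split_ifs) <;> simp [cdown]
  down_down := by
    rintro q ⟨a | x, ch⟩ z <;> cases q <;> simp only [cδ, cdown] <;>
      (try split_ifs) <;> simp

lemma acc_acc (w : List (P ⊕ Option R)) : ∀ c, (checker M).Acc (.acc, c) w := by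
  induction w with
  | nil => intro c; trivial
  | cons a w ih => intro c; exact ⟨.skip, ih _⟩

lemma acc_rej (w : List (P ⊕ Option R)) : ∀ c, ¬ (checker M).Acc (.rej, c) w := by
  induction w with
  | nil => intro c h; exact h
  | cons a w ih => rintro c ⟨ch, h⟩; exact ih _ h

lemma acc_down (t : Bool) (o : Option R) (p : P) (w : List (P ⊕ Option R))
    (seg : List (Option R)) : ∀ c,
    (checker M).Acc (.down t o, c) (seg.map Sum.inr ++ .inl p :: w) ↔ c ≠ seg.countP (hit t o) := by
  induction seg with
  | nil =>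
    intro c
    by_cases hc : c = 0
    · simp [CA.Acc, CA.step, checker, cδ, hc]
      exact fun _ => acc_rej M w _
    · simp [CA.Acc, CA.step, checker, cδ, hc]
      exact ⟨⟨.skip⟩, acc_acc M w _⟩
  | cons x seg ih =>
    intro c
    simp only [List.map_cons, List.cons_append, CA.Acc, CA.step, List.countP_cons]
    have e : ∀ ch e, (checker M).δ (.down t o) (.inr x, ch) e =
      if hit t o x then (if e then (.acc, 0) else (.down t o, -1)) else (.down t o, 0) :=
      fun _ _ => rfl
    simp only [e]
    by_cases hx : hit t o x = true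
    · by_cases hc : c = 0
      · simp only [hx, hc, if_true, decide_true]
        exact ⟨fun _ => by omega, fun _ => ⟨.skip, acc_acc M _ _⟩⟩
      · simp only [hx, hc, if_true, decide_false, Bool.false_eq_true, if_false, ih]
        exact ⟨fun ⟨_, h⟩ => by omega, fun h => ⟨.skip, by omega⟩⟩
    · simp only [hx, if_false, ih, Bool.false_eq_true]
      exact ⟨fun ⟨_, h⟩ => by omega, fun h => ⟨.skip, by omega⟩⟩

lemma acc_up (p : P) (r : R) (w : List (P ⊕ Option R)) (seg : List (Option R)) : ∀ z c,
    (checker M).Acc (.up p r z, c) (seg.map Sum.inr ++ w) ↔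
      (checker M).Acc (.up p r (z && decide (seg.countP (hit false (some (M.test p))) = 0)),
        c + seg.countP (hit false (M.src p r))) w := by
  induction seg with
  | nil => intro z c; simp
  | cons x seg ih =>
    intro z c
    simp only [List.map_cons, List.cons_append, CA.Acc, CA.step, List.countP_cons]
    have e : ∀ ch e, (checker M).δ (.up p r z) (.inr x, ch) e =
      (.up p r (z && !hit false (some (M.test p)) x), ((hit false (M.src p r) x).toNat : ℤ)) :=
      fun _ _ => rfl
    simp only [e, ih]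
    have e1 : ((z && !hit false (some (M.test p)) x) &&
        decide (seg.countP (hit false (some (M.test p))) = 0)) =
        (z && decide ((seg.countP (hit false (some (M.test p))) +
          if hit false (some (M.test p)) x = true then 1 else 0) = 0)) := by
      cases hit false (some (M.test p)) x <;> simp
    have e2 : ((c : ℤ) + ((hit false (M.src p r) x).toNat : ℕ)).toNat +
        seg.countP (hit false (M.src p r)) =
        c + (seg.countP (hit false (M.src p r)) +
          if hit false (M.src p r) x = true then 1 else 0) := by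
      cases hit false (M.src p r) x
      · simp
      · simp; omega
    rw [e1, e2]
    exact ⟨fun ⟨_, h⟩ => h, fun h => ⟨.skip, h⟩⟩

lemma acc_up_hdr (p : P) (r : R) (z : Bool) (c : ℕ) (p' : P) (w : List (P ⊕ Option R)) :
    (checker M).Acc (.up p r z, c) (.inl p' :: w) ↔
      (M.halt p = true ∨ p' ≠ M.nxt p z) ∨ c < (M.sub p z r).toNat ∨
        (checker M).Acc (.down true (some r), c - (M.sub p z r).toNat) w := by
  simp only [CA.Acc, CA.step]
  have e : ∀ ch e, (checker M).δ (.up p r z) (.inl p', ch) e =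
      if M.halt p = true ∨ p' ≠ M.nxt p z then (.acc, 0)
      else if M.sub p z r then (if e then (.acc, 0) else (.down true (some r), -1))
      else (.down true (some r), 0) := fun _ _ => rfl
  simp only [e]
  by_cases h1 : M.halt p = true ∨ p' ≠ M.nxt p z
  · simp only [h1, if_true, true_or, iff_true]
    exact ⟨.skip, acc_acc M _ _⟩
  · simp only [h1, if_false, false_or]
    cases hs : M.sub p z r
    · simp only [Bool.false_eq_true, if_false, Bool.toNat_false, Nat.not_lt_zero, false_or,
        add_zero, Int.toNat_natCast, Nat.sub_zero]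
      exact ⟨fun ⟨_, h⟩ => h, fun h => ⟨.skip, h⟩⟩
    · by_cases hc : c = 0
      · simp only [hc, if_true, decide_true, Bool.toNat_true, zero_lt_one, true_or, iff_true]
        exact ⟨.skip, acc_acc M _ _⟩
      · have e2 : ((c : ℤ) + -1).toNat = c - 1 := by omega
        simp only [hc, if_true, decide_false, Bool.toNat_true, Bool.false_eq_true, if_false, e2,
          Nat.lt_one_iff, false_or]
        exact ⟨fun ⟨_, h⟩ => h, fun h => ⟨.skip, h⟩⟩

/-- no guess made at the header `p` leads to acceptance -/
def NA (n : ℕ) (p : P) (w : List (P ⊕ Option R)) : Prop :=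
  ¬ (checker M).Acc (.scan (M.halt p), n) w ∧ ¬ (checker M).Acc (.down true none, n) w ∧
    ∀ r, ¬ (checker M).Acc (.up p r true, n + (M.add p r).toNat) w

lemma acc_scan (n : ℕ) (p : P) (w : List (P ⊕ Option R)) (seg : List (Option R)) : ∀ b,
    ¬ (checker M).Acc (.scan b, n) (seg.map Sum.inr ++ .inl p :: w) ↔ NA M n p w := by
  induction seg with
  | nil =>
    intro b
    simp only [List.map_nil, List.nil_append, CA.Acc, CA.step, not_exists]
    constructor
    · intro h
      refine ⟨?_, ?_, fun r => ?_⟩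
      · simpa [checker, cδ, hdr] using h .skip
      · simpa [checker, cδ, hdr] using h .tag
      · have := h (.step r)
        simp only [checker, cδ, hdr] at this
        rw [← Nat.cast_add, Int.toNat_natCast] at this
        exact this
    · rintro ⟨h1, h2, h3⟩ ch
      cases ch with
      | skip => simpa [checker, cδ, hdr] using h1
      | tag => simpa [checker, cδ, hdr] using h2
      | ini => simpa [checker, cδ, hdr] using h1
      | step r =>
        simp only [checker, cδ, hdr]
        rw [← Nat.cast_add, Int.toNat_natCast]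
        exact h3 r
  | cons x seg ih =>
    intro b
    rw [← ih false]
    simp only [List.map_cons, List.cons_append, CA.Acc, CA.step, not_exists]
    exact ⟨fun h => by simpa [checker, cδ] using h .skip, fun h ch => by simpa [checker, cδ] using h⟩

lemma acc_scan_end (n : ℕ) (seg : List (Option R)) : ∀ b, (seg = [] → b = false) →
    (checker M).Acc (.scan b, n) (seg.map Sum.inr) := by
  induction seg with
  | nil => intro b h; exact h rfl
  | cons x seg ih =>
    intro b _
    refine ⟨.skip, ?_⟩
    simpa [checker, cδ, CA.step] using ih false fun _ => rfl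

lemma acc_init (n : ℕ) (w : List (P ⊕ Option R)) :
    ¬ (checker M).Acc (.init, n) w ↔ ∃ w', w = .inl M.start :: w' ∧ NA M n M.start w' ∧
      ¬ (checker M).Acc (.down false (some M.r0), n) w' := by
  rcases w with _ | ⟨p | x, w⟩
  · simp [CA.Acc, checker, cacc]
  · by_cases hp : p = M.start
    · subst hp
      simp only [CA.Acc, CA.step, not_exists, List.cons.injEq, true_and, exists_eq_left']
      constructor
      · intro h
        refine ⟨⟨?_, ?_, fun r => ?_⟩, ?_⟩
        · simpa [checker, cδ, hdr] using h .skip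
        · simpa [checker, cδ, hdr] using h .tag
        · have := h (.step r)
          simp only [checker, cδ, hdr, if_true] at this
          rw [← Nat.cast_add, Int.toNat_natCast] at this
          exact this
        · simpa [checker, cδ, hdr] using h .ini
      · rintro ⟨⟨h1, h2, h3⟩, h4⟩ ch
        cases ch with
        | skip => simpa [checker, cδ, hdr] using h1
        | tag => simpa [checker, cδ, hdr] using h2
        | ini => simpa [checker, cδ, hdr] using h4
        | step r =>
          simp only [checker, cδ, hdr, if_true]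
          rw [← Nat.cast_add, Int.toNat_natCast]
          exact h3 r
    · simp only [CA.Acc, CA.step, List.cons.injEq, Sum.inl.injEq, hp, false_and, exists_false,
        iff_false, not_not]
      refine ⟨.skip, ?_⟩
      simpa [checker, cδ, hp] using acc_acc M w n
  · simp only [CA.Acc, CA.step, List.cons.injEq, reduceCtorEq, false_and, exists_false,
        iff_false, not_not]
    refine ⟨.skip, ?_⟩
    simpa [checker, cδ] using acc_acc M w n

/-- number of occurrences -/
def cnt (seg : List (Option R)) (a : Option R) : ℕ := (seg : Multiset (Option R)).count a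

lemma cnt_cons (x : Option R) (seg : List (Option R)) (a : Option R) :
    cnt (x :: seg) a = cnt seg a + if a = x then 1 else 0 := by
  unfold cnt
  rw [← Multiset.cons_coe, Multiset.count_cons]

/-- register contents coded by a segment -/
def regs (seg : List (Option R)) : R → ℕ := fun r => cnt seg (some r)

lemma countP_hit (t : Bool) (o : Option R) (seg : List (Option R)) :
    seg.countP (hit t o) = (if t then cnt seg none else 0) + o.elim 0 (regs seg) := by
  induction seg with
  | nil => cases o <;> simp [regs, cnt]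
  | cons x seg ih =>
    rw [List.countP_cons, ih]
    rcases x with _ | a <;> rcases o with _ | b <;> cases t <;>
      simp [hit, regs, cnt_cons] <;> omega

omit [DecidableEq P] [DecidableEq R] in
lemma split_word (w : List (P ⊕ Option R)) : (∃ seg : List (Option R), w = seg.map Sum.inr) ∨
    ∃ (seg : List (Option R)) (p : P) (w' : List (P ⊕ Option R)),
      w = seg.map Sum.inr ++ .inl p :: w' := by
  induction w with
  | nil => exact Or.inl ⟨[], rfl⟩
  | cons a w ih =>
    rcases a with p | x
    · exact Or.inr ⟨[], p, w, rfl⟩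
    · rcases ih with ⟨seg, rfl⟩ | ⟨seg, p, w', rfl⟩
      · exact Or.inl ⟨x :: seg, rfl⟩
      · exact Or.inr ⟨x :: seg, p, w', rfl⟩

lemma na_halts (hT : M.Total) (n : ℕ) : ∀ (k : ℕ) (w : List (P ⊕ Option R)) (p : P),
    w.length ≤ k → NA M n p w → (w = [] ∧ M.halt p = true) ∨
      ∃ (seg : List (Option R)) (p' : P) (w' : List (P ⊕ Option R)),
        w = seg.map Sum.inr ++ .inl p' :: w' ∧ cnt seg none = n ∧ M.HaltsFrom (p, regs seg) := by
  intro k
  induction k with
  | zero =>
    intro w p hk h
    have : w = [] := List.length_eq_zero_iff.mp (by omega)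
    subst this
    exact Or.inl ⟨rfl, by simpa [CA.Acc, checker, cacc] using h.1⟩
  | succ k ih =>
    intro w p hk h
    rcases split_word w with ⟨seg, rfl⟩ | ⟨seg, p', w', rfl⟩
    · left
      by_contra hc
      refine h.1 (acc_scan_end M n seg _ fun hs => ?_)
      subst hs
      simpa using hc
    · right
      obtain ⟨h1, h2, h3⟩ := h
      rw [acc_scan] at h1
      rw [acc_down, not_not, countP_hit] at h2
      simp only [if_true, Option.elim_none, add_zero] at h2
      refine ⟨seg, p', w', rfl, h2.symm, ?_⟩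
      simp only [acc_up, acc_up_hdr, countP_hit, Bool.true_and, Bool.false_eq_true, if_false,
        zero_add, Option.elim_some, not_or, not_not, not_lt, Bool.not_eq_true] at h3
      obtain ⟨⟨hh, hn⟩, -⟩ := h3 M.r0
      rcases ih w' p' (by simp at hk; omega) h1 with ⟨rfl, hp'⟩ | ⟨seg', p'', w'', rfl, hc, hH⟩
      · obtain ⟨c', hc'⟩ := hT (p, regs seg) hh
        refine ⟨c', ReflTransGen.single hc', ?_⟩
        rw [hc'.2.1, ← hp', hn]
      · obtain ⟨c', hr, hc'⟩ := hH
        refine ⟨c', ReflTransGen.head ⟨hh, hn, fun r => ?_⟩ hr, hc'⟩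
        obtain ⟨-, h4, h5⟩ := h3 r
        rw [acc_down, not_not, countP_hit] at h5
        simp only [if_true, Option.elim_some] at h5
        simp only
        omega

omit [DecidableEq P] in
lemma exists_seg [Finite R] (s : R → ℕ) (n : ℕ) :
    ∃ seg : List (Option R), cnt seg none = n ∧ regs seg = s := by
  have := Fintype.ofFinite R
  have key : ∀ a, cnt (∑ b : Option R, Multiset.replicate (b.elim n s) b).toList a =
      a.elim n s := by
    intro a
    rw [cnt, Multiset.coe_toList, Multiset.count_sum']
    simp [Multiset.count_replicate]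
  exact ⟨_, key none, funext fun r => key (some r)⟩

lemma halts_na [Finite R] (n : ℕ) {c : P × (R → ℕ)} (h : M.HaltsFrom c) :
    ∃ w, NA M n c.1 w ∧ (w = [] ∨ ∃ (seg : List (Option R)) (p' : P) (w' : List (P ⊕ Option R)),
      w = seg.map Sum.inr ++ .inl p' :: w' ∧ cnt seg none = n ∧ regs seg = c.2) := by
  obtain ⟨c', hr, hc'⟩ := h
  induction hr using ReflTransGen.head_induction_on with
  | refl => exact ⟨[], ⟨by simp [CA.Acc, checker, cacc, hc'], fun h => h, fun _ h => h⟩, Or.inl rfl⟩
  | @head a b hab _ ih =>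
    obtain ⟨w', hw', hs⟩ := ih
    obtain ⟨seg, e1, e2⟩ := exists_seg a.2 n
    refine ⟨seg.map Sum.inr ++ .inl b.1 :: w', ⟨?_, ?_, fun r => ?_⟩, Or.inr ⟨seg, _, _, rfl, e1, e2⟩⟩
    · rw [acc_scan]
      exact hw'
    · rw [acc_down, not_not, countP_hit]
      simp [e1]
    · obtain ⟨h1, h2, h3⟩ := hab
      have h4 := h3 r
      simp only [acc_up, acc_up_hdr, countP_hit, Bool.true_and, Bool.false_eq_true, if_false,
        zero_add, Option.elim_some, not_or, not_not, not_lt, Bool.not_eq_true, e2]
      refine ⟨⟨h1, h2⟩, by omega, ?_⟩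
      rcases hs with rfl | ⟨seg', p'', w'', rfl, f1, f2⟩
      · exact fun h => h
      · rw [acc_down, not_not, countP_hit, f2, f1]
        simp only [if_true, Option.elim_some]
        omega

theorem exists_checker : ∃ (Q A C : Type) (_ : Finite Q) (_ : Finite A) (_ : Finite C)
    (_ : Nonempty C) (N : CA Q (A × C)) (S : ℕ → Prop), ¬ ComputablePred S ∧
      ∀ n, (∀ w, N.Acc (N.start, n) w) ↔ ¬ S n := by
  classical
  obtain ⟨P, R, _, _, M, S, hS, hT, hM⟩ := exists_rm
  refine ⟨St P R, P ⊕ Option R, Ch R, inferInstance, inferInstance, inferInstance, ⟨.skip⟩,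
    checker M, S, hS, fun n => ?_⟩
  rw [← not_iff_not, not_not, not_forall]
  constructor
  · rintro ⟨w, hw⟩
    obtain ⟨w', rfl, h1, h2⟩ := (acc_init M n w).mp hw
    rcases na_halts M hT n _ w' _ le_rfl h1 with ⟨_, hh⟩ | ⟨seg, p', w'', rfl, _, hH⟩
    · exact (hM fun _ => n).mp ⟨_, ReflTransGen.refl, hh⟩
    · rw [acc_down, not_not, countP_hit] at h2
      simp only [Bool.false_eq_true, if_false, Option.elim_some, zero_add] at h2
      rw [h2]
      exact (hM _).mp hH
  · intro h
    obtain ⟨w, h1, h2⟩ := halts_na M n ((hM fun _ => n).mpr h)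
    refine ⟨_, (acc_init M n _).mpr ⟨w, rfl, h1, ?_⟩⟩
    rcases h2 with rfl | ⟨seg, p', w', rfl, _, e⟩
    · exact fun h => h
    · rw [acc_down, not_not, countP_hit, e]
      simp

end Pool.Agent.MP_435b2a_lc

end

-- part MP_435b2a_lc.Desc
section

namespace Pool.Agent.MP_435b2a_lc

open Relation

/-- run on a word -/
def CA.run {Q A : Type} (N : CA Q A) (c : Q × ℕ) (w : List A) : Q × ℕ := w.foldl N.step c

lemma CA.run_cons {Q A : Type} (N : CA Q A) (c : Q × ℕ) (a : A) (w : List A) :
    N.run c (a :: w) = N.run (N.step c a) w := rfl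

lemma CA.acc_iff {Q A C : Type} (N : CA Q (A × C)) (x : List A) : ∀ c,
    N.Acc c x ↔ ∃ l : List (A × C), l.map Prod.fst = x ∧ N.acc (N.run c l).1 := by
  induction x with
  | nil => intro c; simp [CA.Acc, CA.run]
  | cons a x ih =>
    intro c
    simp only [CA.Acc, ih]
    constructor
    · rintro ⟨ch, l, rfl, h⟩
      exact ⟨(a, ch) :: l, rfl, h⟩
    · rintro ⟨l, hl, h⟩
      rcases l with _ | ⟨⟨a', ch⟩, l⟩
      · simp at hl
      · obtain ⟨rfl, rfl⟩ := List.cons.inj hl
        exact ⟨ch, l, rfl, h⟩

/-- transition function reading letter and guess one after the other -/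
def seqδ {Q A C : Type} (N : CA Q (A × C)) :
    Option (Q × Option A) → Option (A ⊕ C) → Bool → Option (Q × Option A) × ℤ
  | some (q, none), some (.inl a), _ => (some (q, some a), 0)
  | some (q, some a), some (.inr c), z => (some ((N.δ q (a, c) z).1, none), (N.δ q (a, c) z).2)
  | _, _, _ => (none, 0)

/-- the automaton reading letter and guess one after the other -/
def CA.seq {Q A C : Type} (N : CA Q (A × C)) : CA (Option (Q × Option A)) (Option (A ⊕ C)) where
  δ := seqδ N
  start := some (N.start, none)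
  acc := fun x => ∃ q, x = some (q, none) ∧ N.acc q
  down := fun x => ∀ q o, x = some (q, o) → N.down q
  unit := by
    rintro (_ | ⟨q, _ | a⟩) (_ | b | c) z <;> simp [seqδ, N.unit]
  nz := by
    rintro (_ | ⟨q, _ | a⟩) (_ | b | c) <;> simp [seqδ, N.nz]
  dec_down := by
    rintro (_ | ⟨q, _ | a⟩) (_ | b | c) z <;> simp [seqδ]
    exact N.dec_down _ _ _
  down_down := by
    rintro (_ | ⟨q, _ | a⟩) (_ | b | c) z <;> simp [seqδ]
    exact N.down_down _ _ _

lemma seq_dead {Q A C : Type} (N : CA Q (A × C)) (v : List (Option (A ⊕ C))) :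
    ∀ c, ¬ N.seq.acc (N.seq.run (none, c) v).1 := by
  induction v with
  | nil => rintro c ⟨q, h, -⟩; simp [CA.run] at h
  | cons y v ih => intro c; exact ih _

lemma inter_cons {A C : Type} (p : A × C) (l : List (A × C)) :
    inter (p :: l) = leL p.1 :: chL p.2 :: inter l := by simp [inter]

lemma seq_acc {Q A C : Type} (N : CA Q (A × C)) (v : List (Option (A ⊕ C))) :
    (∀ q c, N.seq.acc (N.seq.run (some (q, none), c) v).1 ↔
      ∃ l, N.acc (N.run (q, c) l).1 ∧ v = inter l) ∧
    ∀ q a c, N.seq.acc (N.seq.run (some (q, some a), c) v).1 ↔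
      ∃ ch l, N.acc (N.run (N.step (q, c) (a, ch)) l).1 ∧ v = chL ch :: inter l := by
  induction v with
  | nil =>
    refine ⟨fun q c => ⟨?_, ?_⟩, fun q a c => ⟨?_, ?_⟩⟩
    · rintro ⟨q', h, h'⟩
      obtain rfl : q = q' := by simpa [CA.run] using h
      exact ⟨[], h', rfl⟩
    · rintro ⟨l, h, e⟩
      rcases l with _ | ⟨p, l⟩
      · exact ⟨q, rfl, h⟩
      · simp [inter_cons] at e
    · rintro ⟨q', h, -⟩
      simp [CA.run] at h
    · rintro ⟨ch, l, -, e⟩
      simp at e
  | cons y v ih =>
    obtain ⟨i1, i2⟩ := ih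
    refine ⟨fun q c => ?_, fun q a c => ?_⟩
    · rw [CA.run_cons]
      rcases y with _ | b | d
      · refine iff_of_false (seq_dead N v _) ?_
        rintro ⟨_ | ⟨p, l⟩, -, e⟩ <;> simp [inter, leL] at e
      · have e : N.seq.step (some (q, none), c) (some (.inl b)) = (some (q, some b), c) := by
          simp [CA.step, CA.seq, seqδ]
        rw [e, i2]
        constructor
        · rintro ⟨ch, l, h, rfl⟩
          exact ⟨(b, ch) :: l, h, (inter_cons (b, ch) l).symm⟩
        · rintro ⟨_ | ⟨⟨b', ch⟩, l⟩, h, e⟩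
          · simp [inter] at e
          · rw [inter_cons] at e
            obtain ⟨e1, rfl⟩ := List.cons.inj e
            obtain rfl : b = b' := by simpa [leL] using e1
            exact ⟨ch, l, h, rfl⟩
      · refine iff_of_false (seq_dead N v _) ?_
        rintro ⟨_ | ⟨p, l⟩, -, e⟩ <;> simp [inter, leL] at e
    · rw [CA.run_cons]
      rcases y with _ | b | d
      · refine iff_of_false (seq_dead N v _) ?_
        rintro ⟨ch, l, -, e⟩
        simp [chL] at e
      · refine iff_of_false (seq_dead N v _) ?_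
        rintro ⟨ch, l, -, e⟩
        simp [chL] at e
      · have e : N.seq.step (some (q, some a), c) (some (.inr d)) =
            (some ((N.step (q, c) (a, d)).1, none), (N.step (q, c) (a, d)).2) := rfl
        rw [e, i1]
        constructor
        · rintro ⟨l, h, rfl⟩
          exact ⟨d, l, h, rfl⟩
        · rintro ⟨ch, l, h, e⟩
          obtain ⟨e1, rfl⟩ := List.cons.inj e
          obtain rfl : d = ch := by simpa [chL] using e1
          exact ⟨l, h, rfl⟩

/-- union with a regular language, over a renamed alphabet -/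
def CA.union {Q A B τ : Type} (N : CA Q A) (E : DFA A τ) (f : B → A) : CA (Q × τ) B where
  δ := fun x b z => (((N.δ x.1 (f b) z).1, E.step x.2 (f b)), (N.δ x.1 (f b) z).2)
  start := (N.start, E.start)
  acc := fun x => N.acc x.1 ∨ x.2 ∈ E.accept
  down := fun x => N.down x.1
  unit := fun _ _ _ => N.unit _ _ _
  nz := fun _ _ => N.nz _ _
  dec_down := fun _ _ _ => N.dec_down _ _ _
  down_down := fun _ _ _ => N.down_down _ _ _

lemma union_run {Q A B τ : Type} (N : CA Q A) (E : DFA A τ) (f : B → A) (w : List B) :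
    ∀ q t c, ((N.union E f).run ((q, t), c) w).1 =
      ((N.run (q, c) (w.map f)).1, E.evalFrom t (w.map f)) := by
  induction w with
  | nil => intro q t c; rfl
  | cons b w ih => intro q t c; exact ih _ _ _

lemma CA.step_snd {Q A : Type} (N : CA Q A) (c : Q × ℕ) (a : A) :
    ((N.step c a).2 : ℤ) = c.2 + (N.δ c.1 a (decide (c.2 = 0))).2 := by
  refine Int.toNat_of_nonneg ?_
  by_cases h : c.2 = 0
  · simpa [h] using N.nz c.1 a
  · have := (abs_le.mp (N.unit c.1 a (decide (c.2 = 0)))).1
    omega

theorem exists_desc {Q : Type} [Finite Q] {k : ℕ} (N : CA Q (Fin k)) :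
    ∃ desc : ℕ → Machine k, Computable desc ∧ ∀ n, IsDCM11 (desc n) ∧
      ∀ w, w ∈ lang (desc n) ↔ N.acc (N.run (N.start, n) w).1 := by
  obtain ⟨B, ⟨eq⟩⟩ := Finite.exists_equiv_fin Q
  let e : Q → ℕ := fun q => eq q
  have he : ∀ q, e q < B := fun q => (eq q).2
  have hinj : Function.Injective e := fun a b h => eq.injective (Fin.ext h)
  obtain ⟨F0, hF0⟩ : ∃ F0 : List ℕ, ∀ m, m ∈ F0 ↔ ∃ q, N.acc q ∧ e q = m := by
    have : (e '' {q | N.acc q}).Finite := (Set.toFinite _).image _
    exact ⟨this.toFinset.toList, fun m => by simp⟩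
  obtain ⟨T0, hT0⟩ : ∃ T0 : List (ℕ × Option (Fin k) × Bool × ℕ × ℤ), ∀ t, t ∈ T0 ↔
      ∃ q a z, (e q, some a, z, e (N.δ q a z).1, (N.δ q a z).2) = t := by
    have : (Set.range fun x : Q × Fin k × Bool => (e x.1, some x.2.1, x.2.2,
      e (N.δ x.1 x.2.1 x.2.2).1, (N.δ x.1 x.2.1 x.2.2).2)).Finite := Set.finite_range _
    exact ⟨this.toFinset.toList, fun m => by simp⟩
  let ch : Bool → ℕ → List (ℕ × Option (Fin k) × Bool × ℕ × ℤ) := fun z n =>
    (List.range n).map fun i => (B + i + 1, none, z, B + i, 1)
  let desc : ℕ → Machine k := fun n => (B + n, F0,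
    (T0 ++ [(B, none, true, e N.start, 0), (B, none, false, e N.start, 0)]) ++
      (ch true n ++ ch false n))
  have hmem : ∀ n t, t ∈ (desc n).2.2 ↔
      (∃ q a z, (e q, some a, z, e (N.δ q a z).1, (N.δ q a z).2) = t) ∨
      (∃ z, (B, none, z, e N.start, 0) = t) ∨ ∃ i < n, ∃ z, (B + i + 1, none, z, B + i, 1) = t := by
    intro n t
    simp only [desc, ch, List.mem_append, hT0, List.mem_cons, List.mem_map, List.mem_range,
      List.not_mem_nil, or_false, Bool.exists_bool, eq_comm (a := t), and_or_left, exists_or]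
    rw [or_assoc]
    exact or_congr_right (or_congr or_comm or_comm)
  have hcases : ∀ n c c', Step (desc n) c c' →
      (∃ q a, c.1 = e q ∧ c.2.1 = a :: c'.2.1 ∧ c'.1 = e (N.step (q, c.2.2) a).1 ∧
        c'.2.2 = (N.step (q, c.2.2) a).2) ∨
      (c.1 = B ∧ c' = (e N.start, c.2.1, c.2.2)) ∨
      ∃ i < n, c.1 = B + i + 1 ∧ c' = (B + i, c.2.1, c.2.2 + 1) := by
    rintro n ⟨p, w, c⟩ ⟨p', w', c'⟩ ⟨x, d, h1, h2, h3⟩
    simp only at h1 h2 h3 ⊢
    rcases (hmem n _).mp h1 with ⟨q, a, z, h⟩ | ⟨z, h⟩ | ⟨i, hi, z, h⟩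
    · simp only [Prod.mk.injEq] at h
      obtain ⟨rfl, rfl, rfl, rfl, rfl⟩ := h
      refine Or.inl ⟨q, a, rfl, h2, rfl, ?_⟩
      have := N.step_snd (q, c) a
      simp only at this
      omega
    · simp only [Prod.mk.injEq] at h
      obtain ⟨rfl, rfl, rfl, rfl, rfl⟩ := h
      refine Or.inr (Or.inl ⟨rfl, ?_⟩)
      obtain rfl : w = w' := h2
      obtain rfl : c' = c := by omega
      rfl
    · simp only [Prod.mk.injEq] at h
      obtain ⟨rfl, rfl, rfl, rfl, rfl⟩ := h
      refine Or.inr (Or.inr ⟨i, hi, rfl, ?_⟩)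
      obtain rfl : w = w' := h2
      obtain rfl : c' = c + 1 := by omega
      rfl
  refine ⟨desc, Primrec.to_comp ?_, fun n => ⟨⟨?_, ?_, ?_⟩, fun w => ⟨?_, ?_⟩⟩⟩
  · have hch : ∀ z, Primrec (ch z) := fun z =>
      Primrec.list_map Primrec.list_range
        ((Primrec.succ.comp (Primrec.nat_add.comp (Primrec.const B) Primrec.snd)).pair
          ((Primrec.const none).pair ((Primrec.const z).pair
            ((Primrec.nat_add.comp (Primrec.const B) Primrec.snd).pair (Primrec.const 1))))).to₂
    exact (Primrec.nat_add.comp (Primrec.const B) Primrec.id).pair ((Primrec.const F0).pair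
      (Primrec.list_append.comp (Primrec.const _) (Primrec.list_append.comp (hch _) (hch _))))
  · intro t ht
    rcases (hmem n t).mp ht with ⟨q, a, z, rfl⟩ | ⟨z, rfl⟩ | ⟨i, hi, z, rfl⟩
    · exact N.unit _ _ _
    · simp
    · simp
  · intro t ht t' ht' h1 h2 h3
    rcases (hmem n t).mp ht with ⟨q, a, z, rfl⟩ | ⟨z, rfl⟩ | ⟨i, hi, z, rfl⟩ <;>
      rcases (hmem n t').mp ht' with ⟨q', a', z', rfl⟩ | ⟨z', rfl⟩ | ⟨i', hi', z', rfl⟩ <;>
      simp only at h1 h2 h3
    · obtain rfl := hinj h1
      obtain rfl : a = a' := by simpa using h3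
      rw [h2]
    · have := he q; omega
    · have := he q; omega
    · have := he q'; omega
    · rw [h2]
    · omega
    · have := he q'; omega
    · omega
    · obtain rfl : i = i' := by omega
      rw [h2]
  · intro w c₁ c₂ c₃ c₄ _ h12 h23 h34 hlt
    have next : ∀ c c', Step (desc n) c c' → (∃ q, c.1 = e q ∧ N.down q) →
        (∃ q, c'.1 = e q ∧ N.down q) ∧ c'.2.2 ≤ c.2.2 := by
      rintro c c' h ⟨q, hq, hd⟩
      rcases hcases n c c' h with ⟨q', a, h1, -, h3, h4⟩ | ⟨h1, -⟩ | ⟨i, -, h1, -⟩
      · obtain rfl := hinj (hq.symm.trans h1)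
        have h5 := N.down_down q a (decide (c.2.2 = 0)) hd
        have h6 := N.step_snd (q, c.2.2) a
        simp only at h6
        exact ⟨⟨_, h3, h5.1⟩, by omega⟩
      · have := he q; omega
      · have := he q; omega
    have h2 : ∃ q, c₂.1 = e q ∧ N.down q := by
      rcases hcases n _ _ h12 with ⟨q', a, -, -, h3, h4⟩ | ⟨-, h1⟩ | ⟨i, -, -, h1⟩
      · have h6 := N.step_snd (q', c₁.2.2) a
        simp only at h6
        have h7 : (N.δ q' a (decide (c₁.2.2 = 0))).2 < 0 := by omega
        exact ⟨_, h3, N.dec_down _ _ _ h7⟩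
      · rw [h1] at hlt; simp at hlt
      · rw [h1] at hlt; simp at hlt
    have h3 : ∃ q, c₃.1 = e q ∧ N.down q := by
      clear h34
      induction h23 with
      | refl => exact h2
      | tail _ h ih => exact (next _ _ h ih).1
    exact (next _ _ h34 h3).2
  · rintro ⟨f, hf, m, h⟩
    have inv : ∀ c, ReflTransGen (Step (desc n)) (B + n, w, 0) c →
        (∃ i ≤ n, c = (B + i, w, n - i)) ∨ ∃ w₁, w = w₁ ++ c.2.1 ∧
          c.1 = e (N.run (N.start, n) w₁).1 ∧ c.2.2 = (N.run (N.start, n) w₁).2 := by
      intro c h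
      induction h with
      | refl => exact Or.inl ⟨n, le_rfl, by simp⟩
      | @tail c c' _ h ih =>
        rcases ih with ⟨i, hi, rfl⟩ | ⟨w₁, h1, h2, h3⟩
        · rcases hcases n _ _ h with ⟨q', a, h4, -⟩ | ⟨h4, rfl⟩ | ⟨j, hj, h4, rfl⟩
          · have := he q'; simp only at h4; omega
          · obtain rfl : i = 0 := by simpa using h4
            exact Or.inr ⟨[], rfl, rfl, rfl⟩
          · obtain rfl : i = j + 1 := by simp only at h4; omega
            refine Or.inl ⟨j, by omega, ?_⟩
            simp only [Prod.mk.injEq, true_and]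
            omega
        · rcases hcases n _ _ h with ⟨q', a, h4, h5, h6, h7⟩ | ⟨h4, -⟩ | ⟨j, -, h4, -⟩
          · obtain rfl := hinj (h4.symm.trans h2)
            refine Or.inr ⟨w₁ ++ [a], by rw [h1, h5]; simp, ?_⟩
            rw [h3] at h6 h7
            simpa [CA.run] using ⟨h6, h7⟩
          · have := he (N.run (N.start, n) w₁).1; omega
          · have := he (N.run (N.start, n) w₁).1; omega
    obtain ⟨q, hq, rfl⟩ := (hF0 f).mp hf
    rcases inv _ h with ⟨i, -, h1⟩ | ⟨w₁, h1, h2, -⟩
    · have := he q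
      simp only [Prod.mk.injEq] at h1
      omega
    · obtain rfl : w = w₁ := by simpa using h1
      rwa [← hinj h2]
  · intro h
    have chain : ∀ i ≤ n, ∀ c, ReflTransGen (Step (desc n)) (B + i, w, c) (e N.start, w, c + i) := by
      intro i
      induction i with
      | zero =>
        intro _ c
        exact ReflTransGen.single ⟨none, 0, (hmem n _).mpr (Or.inr (Or.inl ⟨_, rfl⟩)), rfl, by simp⟩
      | succ i ih =>
        intro hi c
        refine ReflTransGen.head (b := (B + i, w, c + 1))
          ⟨none, 1, (hmem n _).mpr (Or.inr (Or.inr ⟨i, by omega, _, rfl⟩)), rfl, by simp⟩ ?_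
        rw [show c + (i + 1) = c + 1 + i by omega]
        exact ih (by omega) _
    have rest : ∀ (v : List (Fin k)) (c : Q × ℕ), ReflTransGen (Step (desc n)) (e c.1, v, c.2)
        (e (N.run c v).1, [], (N.run c v).2) := by
      intro v
      induction v with
      | nil => intro c; exact ReflTransGen.refl
      | cons a v ih =>
        intro c
        exact ReflTransGen.head (b := (e (N.step c a).1, v, (N.step c a).2))
          ⟨some a, _, (hmem n _).mpr (Or.inl ⟨c.1, a, _, rfl⟩), rfl, N.step_snd c a⟩ (ih _)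
    have h1 := chain n le_rfl 0
    rw [zero_add] at h1
    exact ⟨_, (hF0 _).mpr ⟨_, h, rfl⟩, _, h1.trans (rest w (N.start, n))⟩

theorem main : ∃ (k : ℕ) (L₁ : Language (Fin k)) (desc : ℕ → Machine k) (S : ℕ → Prop),
    L₁.IsRegular ∧ Computable desc ∧ ¬ ComputablePred S ∧ ∀ n, IsDCM11 (desc n) ∧
      ((⊤ : Language (Fin k)) = shuffle L₁ (lang (desc n)) ↔ ¬ S n) := by
  classical
  obtain ⟨Q, A, C, _, _, _, ⟨c₀⟩, N, S, hS, hN⟩ := exists_checker
  have := Fintype.ofFinite C
  let cs : List C := Finset.univ.toList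
  have hcs : ∀ c, c ∈ cs := fun c => by simp [cs]
  have hne : cs ≠ [] := List.ne_nil_of_mem (hcs c₀)
  obtain ⟨k, ⟨f⟩⟩ := Finite.exists_equiv_fin (Option (A ⊕ C))
  obtain ⟨τ, _, E, hE⟩ := GG_regular (A := A) cs
  obtain ⟨σ, _, D, hD⟩ := L1_regular (A := A) cs
  obtain ⟨desc, hc, hd⟩ := exists_desc (N.seq.union E f.symm)
  refine ⟨k, (D.comap f.symm).accepts, desc, S, ⟨σ, inferInstance, _, rfl⟩, hc, hS, fun n =>
    ⟨(hd n).1, ?_⟩⟩
  have hL2 : ∀ v, v ∈ lang (desc n) ↔ (∃ l, N.acc (N.run (N.start, n) l).1 ∧
      v.map f.symm = inter l) ∨ v.map f.symm ∈ GG cs := by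
    intro v
    rw [(hd n).2, ← (seq_acc N _).1, ← hE]
    show (N.seq.union E f.symm).acc ((N.seq.union E f.symm).run ((N.seq.start, E.start), n) v).1 ↔ _
    rw [union_run]
    rfl
  have hL1 : ∀ u, u ∈ (D.comap f.symm).accepts ↔ u.map f.symm ∈ L1 cs := by
    intro u
    rw [DFA.accepts_comap, hD]
    rfl
  rw [← hN]
  simp only [CA.acc_iff]
  rw [← shuffle_top_iff cs hne hcs fun l => N.acc (N.run (N.start, n) l).1]
  constructor
  · intro h w
    have : w.map f ∈ shuffle (D.comap f.symm).accepts (lang (desc n)) := by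
      rw [← h]; trivial
    obtain ⟨u, hu, v, hv, hs⟩ := this
    have hs' := (mem_shuffleWords.mp hs).map f.symm
    simp only [List.map_map, Equiv.symm_comp_self, List.map_id] at hs'
    exact ⟨_, (hL1 u).mp hu, _, (hL2 v).mp hv, hs'⟩
  · intro h
    ext w
    refine iff_of_true trivial ?_
    obtain ⟨u, hu, v, hv, hs⟩ := h (w.map f.symm)
    have hs' := hs.map f
    simp only [List.map_map, Equiv.self_comp_symm, List.map_id] at hs'
    refine ⟨_, (hL1 _).mpr ?_, _, (hL2 _).mpr ?_, mem_shuffleWords.mpr hs'⟩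
    · simpa using hu
    · simpa using hv

end Pool.Agent.MP_435b2a_lc

end
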